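import Pool.Agent.W_79d227_ls.Defs

/-!
Only rows of size `t` matter (proofs row 584, (4)).
-/

set_option autoImplicit false

namespace Pool.Agent.W_79d227_ls

open Finset Pool.Agent.W_79d227_kp

variable {V : Type} [Fintype V] [DecidableEq V] {y : Finset V → ℝ} {t : ℕ} {T : ℝ}

theorem bb_succ (T : ℝ) (j r : ℕ) : bb T j (r + 1) = (T - j) / ((r : ℝ) + 1) * bb T (j + 1) r := by
  induction r with
  | zero => simp [bb]
  | succ r ih =>
    have h1 : bb T j (r + 1 + 1) = bb T j (r + 1) * ((T - j - (r + 1 : ℕ)) / (((r + 1 : ℕ) : ℝ) + 1)) := by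
      unfold bb
      rw [Finset.prod_range_succ]
    have h2 : bb T (j + 1) (r + 1) = bb T (j + 1) r * ((T - (j + 1 : ℕ) - r) / ((r : ℝ) + 1)) := by
      unfold bb
      rw [Finset.prod_range_succ]
    rw [h1, h2, ih]
    have h3 : (r : ℝ) + 1 ≠ 0 := by positivity
    have h4 : ((r + 1 : ℕ) : ℝ) + 1 ≠ 0 := by positivity
    push_cast at h4 ⊢
    field_simp
    ring

theorem bb_pos {T : ℝ} {j r : ℕ} (h : ((j + r : ℕ) : ℝ) ≤ T) : 0 < bb T j r := by
  unfold bb
  apply Finset.prod_pos
  intro i hi
  have h1 : i + 1 ≤ r := by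
    have := Finset.mem_range.1 hi
    omega
  have h2 : (i : ℝ) + 1 ≤ r := by exact_mod_cast h1
  apply div_pos _ (by positivity)
  push_cast at h
  linarith

/-- PROOF: split the `v ∉ I` in those of `J \ I` (then `insert v I ∪ J = I ∪ J`; there are
`|I ∪ J| - |I|` of them) and those outside `I ∪ J` (`h` for `S = I ∪ J`). -/
theorem rel_step (h : Rel y t T) {I J : Finset V} (hI : I.card < t) (hJ : J.card ≤ t) :
    ∑ v ∈ univ.filter (fun v => v ∉ I), y (insert v I ∪ J) = (T - I.card) * y (I ∪ J) := by
  have hcard : (I ∪ J).card < 2 * t := by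
    have := Finset.card_union_le I J
    omega
  have h1 := h (I ∪ J) hcard
  have h2 : univ.filter (fun v => v ∉ I) = (J \ I) ∪ univ.filter (fun v => v ∉ I ∪ J) := by
    ext v
    simp only [mem_filter, mem_univ, true_and, mem_union, mem_sdiff]
    tauto
  have h3 : Disjoint (J \ I) (univ.filter (fun v => v ∉ I ∪ J)) := by
    rw [Finset.disjoint_left]
    intro v hv hv2
    rw [mem_sdiff] at hv
    simp only [mem_filter, mem_univ, true_and, mem_union, not_or] at hv2
    exact hv2.2 hv.1
  rw [h2, Finset.sum_union h3]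
  have h4 : ∑ v ∈ J \ I, y (insert v I ∪ J) = ((J \ I).card : ℝ) * y (I ∪ J) := by
    rw [← nsmul_eq_mul, ← Finset.sum_const]
    apply Finset.sum_congr rfl
    intro v hv
    rw [mem_sdiff] at hv
    congr 1
    rw [Finset.insert_union, Finset.insert_eq_of_mem]
    exact mem_union_right _ hv.1
  have h5 : ∑ v ∈ univ.filter (fun v => v ∉ I ∪ J), y (insert v I ∪ J) =
      (T - (I ∪ J).card) * y (I ∪ J) := by
    rw [← h1]
    apply Finset.sum_congr rfl
    intro v _
    rw [Finset.insert_union]
  have h6 : (I ∪ J).card = (J \ I).card + I.card := by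
    rw [Finset.union_comm, ← Finset.sdiff_union_self_eq_union,
      Finset.card_union_of_disjoint Finset.sdiff_disjoint]
  rw [h4, h5, h6]
  push_cast
  ring

/-- Double counting: every `L ⊇ I` with `|L| = |I| + r + 1` arises from `r + 1` elements `v ∈ L \ I`. -/
theorem sum_up (φ : Finset V → ℝ) (I : Finset V) (r : ℕ) :
    ((r : ℝ) + 1) * ∑ L ∈ univ.filter (fun L => I ⊆ L ∧ L.card = I.card + (r + 1)), φ L =
      ∑ v ∈ univ.filter (fun v => v ∉ I),
        ∑ L ∈ univ.filter (fun L => insert v I ⊆ L ∧ L.card = (insert v I).card + r), φ L := by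
  have key : ∑ v ∈ univ.filter (fun v => v ∉ I),
        ∑ L ∈ univ.filter (fun L => insert v I ⊆ L ∧ L.card = (insert v I).card + r), φ L =
      ∑ L ∈ univ.filter (fun L => I ⊆ L ∧ L.card = I.card + (r + 1)), ∑ _v ∈ L \ I, φ L := by
    apply Finset.sum_comm'
    intro v L
    simp only [mem_filter, mem_univ, true_and, mem_sdiff]
    constructor
    · rintro ⟨h1, h2, h3⟩
      rw [Finset.card_insert_of_notMem h1] at h3
      exact ⟨⟨h2 (mem_insert_self v I), h1⟩, (subset_insert v I).trans h2, by omega⟩
    · rintro ⟨⟨h1, h2⟩, h3, h4⟩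
      rw [Finset.card_insert_of_notMem h2]
      exact ⟨h2, Finset.insert_subset h1 h3, by omega⟩
  rw [key, Finset.mul_sum]
  apply Finset.sum_congr rfl
  intro L hL
  simp only [mem_filter, mem_univ, true_and] at hL
  rw [Finset.sum_const, nsmul_eq_mul, Finset.card_sdiff_of_subset hL.1]
  have h1 : L.card - I.card = r + 1 := by omega
  rw [h1]
  push_cast
  ring

/-- PROOF: induction on `r` with `sum_up`, `rel_step`, `bb_succ`; `r = 0`: the only `L` is `I`. -/
theorem lift_sum (h : Rel y t T) (r : ℕ) : ∀ I J : Finset V, I.card + r = t → J.card ≤ t →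
    ∑ L ∈ univ.filter (fun L => I ⊆ L ∧ L.card = t), y (L ∪ J) = bb T I.card r * y (I ∪ J) := by
  induction r with
  | zero =>
    intro I J hI hJ
    have h1 : univ.filter (fun L => I ⊆ L ∧ L.card = t) = {I} := by
      ext L
      simp only [mem_filter, mem_univ, true_and, mem_singleton]
      constructor
      · rintro ⟨h1, h2⟩
        exact (Finset.eq_of_subset_of_card_le h1 (by omega)).symm
      · rintro rfl
        exact ⟨subset_rfl, by omega⟩
    rw [h1, Finset.sum_singleton]
    simp [bb]
  | succ r ih =>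
    intro I J hI hJ
    have h1 := sum_up (fun L => y (L ∪ J)) I r
    have h2 : ∀ v ∈ univ.filter (fun v => v ∉ I),
        ∑ L ∈ univ.filter (fun L => insert v I ⊆ L ∧ L.card = (insert v I).card + r), y (L ∪ J) =
          bb T (I.card + 1) r * y (insert v I ∪ J) := by
      intro v hv
      simp only [mem_filter, mem_univ, true_and] at hv
      have h3 := Finset.card_insert_of_notMem hv
      have h4 := ih (insert v I) J (by omega) hJ
      have h5 : (insert v I).card + r = t := by omega
      rw [h5, h4, h3]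
    rw [Finset.sum_congr rfl h2, ← Finset.mul_sum, rel_step h (by omega) hJ, hI] at h1
    rw [bb_succ]
    have h6 : (r : ℝ) + 1 ≠ 0 := by positivity
    rw [div_mul_eq_mul_div, div_mul_eq_mul_div, eq_div_iff h6]
    linarith

/-- PROOF: by `lift_sum` twice, `y (I ∪ J) = ∑_L ∑_L' w I L w J L' y (L ∪ L')` over `t`-sets, where
`w I L = if I ⊆ L then 1 / bb T |I| (t - |I|) else 0`; interchange the sums and use `htop` for
`F L = ∑_I c_I w I L`. -/
theorem psd_of_top (h : Rel y t T) (hT : (t : ℝ) ≤ T)
    (htop : ∀ F : Finset V → ℝ, 0 ≤ ∑ I ∈ univ.filter (fun I => I.card = t),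
      ∑ J ∈ univ.filter (fun J => J.card = t), F I * F J * y (I ∪ J)) :
    PSD (fun I J : {S : Finset V // S.card ≤ t} => y (I.1 ∪ J.1)) := by
  refine ⟨fun I J => congrArg y (Finset.union_comm I.1 J.1), fun c => ?_⟩
  obtain ⟨w, hw⟩ : ∃ w : Finset V → Finset V → ℝ,
      ∀ I L, w I L = if I ⊆ L then 1 / bb T I.card (t - I.card) else 0 := ⟨_, fun _ _ => rfl⟩
  have key : ∀ I J : Finset V, I.card ≤ t → J.card ≤ t →
      ∑ L ∈ univ.filter (fun L => L.card = t), w I L * y (L ∪ J) = y (I ∪ J) := by
    intro I J hI hJ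
    have hb : 0 < bb T I.card (t - I.card) := by
      apply bb_pos
      have : I.card + (t - I.card) = t := by omega
      rw [this]
      exact hT
    have h1 := lift_sum h (t - I.card) I J (by omega) hJ
    have h2 : ∑ L ∈ univ.filter (fun L => L.card = t), w I L * y (L ∪ J) =
        ∑ L ∈ univ.filter (fun L => I ⊆ L ∧ L.card = t),
          1 / bb T I.card (t - I.card) * y (L ∪ J) := by
      rw [Finset.sum_filter, Finset.sum_filter]
      apply Finset.sum_congr rfl
      intro L _
      by_cases h3 : L.card = t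
      · by_cases h4 : I ⊆ L
        · rw [if_pos h3, if_pos ⟨h4, h3⟩, hw, if_pos h4]
        · rw [if_pos h3, if_neg (fun h5 => h4 h5.1), hw, if_neg h4, zero_mul]
      · rw [if_neg h3, if_neg (fun h5 => h3 h5.2)]
    rw [h2, ← Finset.mul_sum, h1]
    field_simp
  have swap : ∀ g : Finset V → ℝ, ∑ L ∈ univ.filter (fun L => L.card = t),
      (∑ x : {S : Finset V // S.card ≤ t}, c x * w x.1 L) * g L =
        ∑ x : {S : Finset V // S.card ≤ t}, c x *
          ∑ L ∈ univ.filter (fun L => L.card = t), w x.1 L * g L := by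
    intro g
    simp only [Finset.sum_mul, Finset.mul_sum]
    rw [Finset.sum_comm]
    apply Finset.sum_congr rfl
    intro x _
    apply Finset.sum_congr rfl
    intro L _
    ring
  have h1 := htop (fun L => ∑ x : {S : Finset V // S.card ≤ t}, c x * w x.1 L)
  have h2 : ∑ I ∈ univ.filter (fun I => I.card = t), ∑ J ∈ univ.filter (fun J => J.card = t),
      (∑ x : {S : Finset V // S.card ≤ t}, c x * w x.1 I) *
        (∑ x : {S : Finset V // S.card ≤ t}, c x * w x.1 J) * y (I ∪ J) =
      ∑ x : {S : Finset V // S.card ≤ t}, ∑ z : {S : Finset V // S.card ≤ t},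
        c x * c z * y (x.1 ∪ z.1) := by
    have h3 : ∀ I ∈ univ.filter (fun I : Finset V => I.card = t),
        ∑ J ∈ univ.filter (fun J => J.card = t),
          (∑ x : {S : Finset V // S.card ≤ t}, c x * w x.1 I) *
            (∑ x : {S : Finset V // S.card ≤ t}, c x * w x.1 J) * y (I ∪ J) =
          (∑ x : {S : Finset V // S.card ≤ t}, c x * w x.1 I) *
            ∑ z : {S : Finset V // S.card ≤ t}, c z * y (z.1 ∪ I) := by
      intro I hI
      simp only [mem_filter, mem_univ, true_and] at hI
      have h4 := swap (fun J => y (J ∪ I))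
      have h5 : ∀ z ∈ (univ : Finset {S : Finset V // S.card ≤ t}), c z *
          ∑ L ∈ univ.filter (fun L => L.card = t), w z.1 L * y (L ∪ I) = c z * y (z.1 ∪ I) := by
        intro z _
        rw [key z.1 I z.2 hI.le]
      rw [Finset.sum_congr rfl h5] at h4
      rw [← h4, Finset.mul_sum]
      apply Finset.sum_congr rfl
      intro J _
      rw [Finset.union_comm I J]
      ring
    rw [Finset.sum_congr rfl h3, swap (fun I => ∑ z : {S : Finset V // S.card ≤ t}, c z * y (z.1 ∪ I))]
    apply Finset.sum_congr rfl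
    intro x _
    have h6 : ∑ L ∈ univ.filter (fun L => L.card = t), w x.1 L *
        ∑ z : {S : Finset V // S.card ≤ t}, c z * y (z.1 ∪ L) =
        ∑ z : {S : Finset V // S.card ≤ t}, c z * y (x.1 ∪ z.1) := by
      simp only [Finset.mul_sum]
      rw [Finset.sum_comm]
      apply Finset.sum_congr rfl
      intro z _
      rw [← key x.1 z.1 x.2 z.2, Finset.mul_sum]
      apply Finset.sum_congr rfl
      intro L _
      rw [Finset.union_comm z.1 L]
      ring
    rw [h6, Finset.mul_sum]
    apply Finset.sum_congr rfl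
    intro z _
    ring
  rw [← h2]
  exact h1

end Pool.Agent.W_79d227_ls
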