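import Pool.Agent.W_79d227_ls.Defs

/-!
The spectral lemma (proofs row 584, (7)).
-/

set_option autoImplicit false

namespace Pool.Agent.W_79d227_ls

open Finset

variable {X : Type} [Fintype X]

/-- Schur test: `|∑ g_x g_y M_xy| ≤ m ∑ g_x ^ 2` if `M` is symmetric with `∑_y |M_xy| ≤ m` for all
`x`. PROOF: `|g_x g_y| ≤ (g_x ^ 2 + g_y ^ 2) / 2`, symmetry. -/
theorem schur_test (M : X → X → ℝ) (hM : ∀ x y, M x y = M y x) {m : ℝ}
    (hm : ∀ x, ∑ y, |M x y| ≤ m) (g : X → ℝ) :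
    ∑ x, ∑ y, g x * g y * M x y ≤ m * ∑ x, g x ^ 2 := by
  have h1 : ∀ x y, g x * g y * M x y ≤ g x ^ 2 * |M x y| / 2 + g y ^ 2 * |M x y| / 2 := fun x y => by
    have h2 : g x * g y * M x y ≤ |g x * g y| * |M x y| := by
      rw [← abs_mul]
      exact le_abs_self _
    have h3 : |g x * g y| ≤ (g x ^ 2 + g y ^ 2) / 2 := by
      rw [abs_mul]
      nlinarith [sq_nonneg (|g x| - |g y|), sq_abs (g x), sq_abs (g y)]
    have h4 := mul_le_mul_of_nonneg_right h3 (abs_nonneg (M x y))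
    linarith
  have h2 : ∑ x, ∑ y, g x * g y * M x y
      ≤ ∑ x, ∑ y, (g x ^ 2 * |M x y| / 2 + g y ^ 2 * |M x y| / 2) :=
    sum_le_sum fun x _ => sum_le_sum fun y _ => h1 x y
  have h3 : ∑ x, ∑ y, (g x ^ 2 * |M x y| / 2 + g y ^ 2 * |M x y| / 2) = ∑ x, g x ^ 2 * ∑ y, |M x y| := by
    have h4 : ∑ x, ∑ y, g y ^ 2 * |M x y| / 2 = ∑ x, ∑ y, g x ^ 2 * |M x y| / 2 := by
      rw [sum_comm]
      exact sum_congr rfl fun x _ => sum_congr rfl fun y _ => by rw [hM y x]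
    simp only [sum_add_distrib]
    rw [h4, ← sum_add_distrib]
    refine sum_congr rfl fun x _ => ?_
    rw [← sum_add_distrib, mul_sum]
    exact sum_congr rfl fun y _ => by ring
  refine h2.trans (h3.le.trans ?_)
  rw [mul_sum]
  refine sum_le_sum fun x _ => ?_
  rw [mul_comm m]
  exact mul_le_mul_of_nonneg_left (hm x) (sq_nonneg _)

/-- The row sums of `|B - b|`, `b = d ^ 2 / N`: PROOF: `|t| = t + 2 max(-t, 0)`, `∑_y (B x y - b) = 0`
(`hs`), and `max (b - B x y) 0 ≤ b` always, `≤ δ b` if `y` is not in the exceptional set. `N b = d ^ 2`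
if `N ≠ 0` (there is `x`). -/
theorem row_sum_bound (B : X → X → ℝ) (hB0 : ∀ x y, 0 ≤ B x y) {d δ : ℝ} (hδ : 0 ≤ δ)
    (hs : ∀ x, ∑ y, B x y = d ^ 2)
    (hB : ∀ x, ((univ.filter fun y => B x y < (1 - δ) * (d ^ 2 / Fintype.card X)).card : ℝ)
      ≤ δ * Fintype.card X) (x : X) :
    ∑ y, |B x y - d ^ 2 / Fintype.card X| ≤ 4 * δ * d ^ 2 := by
  have hN : (0 : ℝ) < Fintype.card X := by
    have : 0 < Fintype.card X := Fintype.card_pos_iff.2 ⟨x⟩
    exact_mod_cast this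
  set b : ℝ := d ^ 2 / Fintype.card X with hb
  have hb0 : 0 ≤ b := by positivity
  have hNb : (Fintype.card X : ℝ) * b = d ^ 2 := by
    rw [hb]
    field_simp
  have h1 : ∀ y, |B x y - b| = (B x y - b) + 2 * max (b - B x y) 0 := fun y => by
    rcases le_total (B x y) b with h | h
    · rw [abs_of_nonpos (by linarith), max_eq_left (by linarith)]
      ring
    · rw [abs_of_nonneg (by linarith), max_eq_right (by linarith)]
      ring
  have h2 : ∀ y, max (b - B x y) 0 ≤ δ * b + if B x y < (1 - δ) * b then b else 0 := fun y => by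
    have h3 : 0 ≤ δ * b := mul_nonneg hδ hb0
    refine max_le ?_ ?_
    · split_ifs with h
      · have := hB0 x y
        linarith
      · push Not at h
        linarith
    · split_ifs
      · linarith
      · linarith
  have h3 : ∑ y, (B x y - b) = 0 := by
    rw [sum_sub_distrib, hs x, sum_const, card_univ, nsmul_eq_mul, hNb]
    ring
  have h4 : ∑ y, max (b - B x y) 0 ≤ 2 * δ * d ^ 2 := by
    refine (sum_le_sum fun y _ => h2 y).trans ?_
    rw [sum_add_distrib, sum_const, card_univ, nsmul_eq_mul, ← sum_filter, sum_const, nsmul_eq_mul]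
    have h5 := mul_le_mul_of_nonneg_right (hB x) hb0
    have h6 : (Fintype.card X : ℝ) * (δ * b) = δ * d ^ 2 := by rw [← hNb]; ring
    have h7 : δ * (Fintype.card X : ℝ) * b = δ * d ^ 2 := by rw [← hNb]; ring
    rw [h7] at h5
    rw [h6]
    linarith
  rw [sum_congr rfl fun y _ => h1 y, sum_add_distrib, h3, ← mul_sum]
  linarith

/-- Spectral lemma. PROOF: if `X` is empty, trivial. `μ = (∑ f) / N`, `f = μ + g`, `∑ g = 0`. Then
`∑ ∑ f f A = N d μ ^ 2 + ∑ ∑ g g A` and `∑ f ^ 2 = N μ ^ 2 + ∑ g ^ 2`, `d ≥ 0`. With `h x = ∑_y A x y g y`,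
`B x y = ∑_z A x z A z y`: `∑ h ^ 2 = ∑ ∑ g g B = ∑ ∑ g g (B - d ^ 2 / N) ≤ 4 δ d ^ 2 ∑ g ^ 2 ≤
(ε d) ^ 2 ∑ g ^ 2` (`schur_test`, `row_sum_bound`; the row sums of `B` are `d ^ 2`), and
`∑ ∑ g g A = ∑ g h ≥ - (ε d) ∑ g ^ 2` by Cauchy (`(∑ g h) ^ 2 ≤ ∑ g ^ 2 ∑ h ^ 2 ≤ (ε d ∑ g ^ 2) ^ 2`). -/
theorem spec (A : X → X → ℝ) (hA : ∀ x y, A x y = A y x) (h0 : ∀ x y, 0 ≤ A x y) {d : ℝ}
    (hd : ∀ x, ∑ y, A x y = d) {δ ε : ℝ} (hδ : 0 ≤ δ) (hε : 0 ≤ ε) (hε2 : 4 * δ ≤ ε ^ 2)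
    (hB : ∀ x, ((univ.filter fun y =>
      ∑ z, A x z * A z y < (1 - δ) * (d ^ 2 / Fintype.card X)).card : ℝ) ≤ δ * Fintype.card X)
    (f : X → ℝ) :
    -(ε * d) * ∑ x, f x ^ 2 ≤ ∑ x, ∑ y, f x * f y * A x y := by
  rcases isEmpty_or_nonempty X with hX | hX
  · simp
  obtain ⟨x₀⟩ := hX
  have hN : (0 : ℝ) < Fintype.card X := by
    have : 0 < Fintype.card X := Fintype.card_pos_iff.2 ⟨x₀⟩
    exact_mod_cast this
  have hd0 : 0 ≤ d := by
    rw [← hd x₀]
    exact sum_nonneg fun y _ => h0 x₀ y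
  set N : ℝ := (Fintype.card X : ℝ) with hNdef
  set μ : ℝ := (∑ x, f x) / N with hμ
  set g : X → ℝ := fun x => f x - μ with hg
  have hfg : ∀ x, f x = μ + g x := fun x => by simp only [hg]; ring
  have hg0 : ∑ x, g x = 0 := by
    simp only [hg]
    rw [sum_sub_distrib, sum_const, card_univ, nsmul_eq_mul, hμ]
    field_simp
    ring
  have hf2 : ∑ x, f x ^ 2 = N * μ ^ 2 + ∑ x, g x ^ 2 := by
    have h1 : ∀ x, f x ^ 2 = μ ^ 2 + 2 * μ * g x + g x ^ 2 := fun x => by rw [hfg x]; ring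
    rw [sum_congr rfl fun x _ => h1 x, sum_add_distrib, sum_add_distrib, ← mul_sum, hg0, sum_const, card_univ,
      nsmul_eq_mul]
    ring
  have hcol : ∀ y, ∑ x, A x y = d := fun y => by
    rw [← hd y]
    exact sum_congr rfl fun x _ => hA x y
  have hfA : ∑ x, ∑ y, f x * f y * A x y = N * d * μ ^ 2 + ∑ x, ∑ y, g x * g y * A x y := by
    have h1 : ∀ x y, f x * f y * A x y = μ ^ 2 * A x y + μ * (g x * A x y) + μ * (g y * A x y)
        + g x * g y * A x y := fun x y => by rw [hfg x, hfg y]; ring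
    have h2 : ∑ x, ∑ y, μ ^ 2 * A x y = N * d * μ ^ 2 := by
      simp only [← mul_sum, hd]
      rw [sum_const, card_univ, nsmul_eq_mul]
      ring
    have h3 : ∑ x, ∑ y, μ * (g x * A x y) = 0 := by
      simp only [← mul_sum, hd]
      rw [← sum_mul, hg0]
      ring
    have h4 : ∑ x, ∑ y, μ * (g y * A x y) = 0 := by
      rw [sum_comm]
      simp only [← mul_sum, hcol]
      rw [← sum_mul, hg0]
      ring
    simp only [h1, sum_add_distrib]
    rw [h2, h3, h4]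
    ring
  set h : X → ℝ := fun x => ∑ y, A x y * g y with hh
  set B : X → X → ℝ := fun x y => ∑ z, A x z * A z y with hBdef
  have hB0 : ∀ x y, 0 ≤ B x y := fun x y => sum_nonneg fun z _ => mul_nonneg (h0 x z) (h0 z y)
  have hBs : ∀ x, ∑ y, B x y = d ^ 2 := fun x => by
    simp only [hBdef]
    rw [sum_comm]
    simp only [← mul_sum, hd]
    rw [← sum_mul, hd x]
    ring
  have hBsymm : ∀ x y, B x y = B y x := fun x y => by
    simp only [hBdef]
    exact sum_congr rfl fun z _ => by rw [hA x z, hA z y, mul_comm]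
  have hh2 : ∑ x, h x ^ 2 = ∑ x, ∑ y, g x * g y * B x y := by
    have e1 : ∀ z, h z ^ 2 = ∑ x, ∑ y, g x * g y * (A x z * A z y) := fun z => by
      simp only [hh]
      rw [sq, sum_mul_sum]
      exact sum_congr rfl fun x _ => sum_congr rfl fun y _ => by rw [hA z x]; ring
    rw [sum_congr rfl fun z _ => e1 z, sum_comm]
    refine sum_congr rfl fun x _ => ?_
    rw [sum_comm]
    exact sum_congr rfl fun y _ => by rw [← mul_sum]
  have hsub : ∑ x, ∑ y, g x * g y * B x y = ∑ x, ∑ y, g x * g y * (B x y - d ^ 2 / N) := by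
    have e1 : ∑ x, ∑ y, g x * g y * (d ^ 2 / N) = 0 := by
      simp only [← sum_mul, ← mul_sum, hg0]
      ring
    simp only [mul_sub, sum_sub_distrib]
    rw [e1, sub_zero]
  have hbound := row_sum_bound B hB0 hδ hBs hB
  have hS := schur_test (fun x y => B x y - d ^ 2 / N) (fun x y => by rw [hBsymm x y]) hbound g
  have hG0 : 0 ≤ ∑ x, g x ^ 2 := sum_nonneg fun x _ => sq_nonneg _
  have hh3 : ∑ x, h x ^ 2 ≤ (ε * d) ^ 2 * ∑ x, g x ^ 2 := by
    rw [hh2, hsub]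
    refine hS.trans ?_
    have e1 : 4 * δ * d ^ 2 ≤ (ε * d) ^ 2 := by
      rw [mul_pow]
      exact mul_le_mul_of_nonneg_right hε2 (sq_nonneg _)
    exact mul_le_mul_of_nonneg_right e1 hG0
  have hgA : ∑ x, ∑ y, g x * g y * A x y = ∑ x, g x * h x := by
    refine sum_congr rfl fun x _ => ?_
    simp only [hh]
    rw [mul_sum]
    exact sum_congr rfl fun y _ => by ring
  have hCS : (∑ x, g x * h x) ^ 2 ≤ (∑ x, g x ^ 2) * ∑ x, h x ^ 2 := sum_mul_sq_le_sq_mul_sq _ _ _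
  have hεd : 0 ≤ ε * d := mul_nonneg hε hd0
  have hfin : -(ε * d * ∑ x, g x ^ 2) ≤ ∑ x, g x * h x := by
    have e1 : (∑ x, g x * h x) ^ 2 ≤ (ε * d * ∑ x, g x ^ 2) ^ 2 := by
      refine hCS.trans ?_
      have e2 := mul_le_mul_of_nonneg_left hh3 hG0
      refine e2.trans (le_of_eq ?_)
      ring
    exact neg_le_of_abs_le (abs_le_of_sq_le_sq e1 (mul_nonneg hεd hG0))
  rw [hf2, hfA, hgA]
  have e3 : 0 ≤ N * d * μ ^ 2 := by positivity
  have e4 : 0 ≤ ε * d * (N * μ ^ 2) := by positivity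
  nlinarith

end Pool.Agent.W_79d227_ls
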