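import Pool.Agent.W_79d227_ls.Count
import Pool.Agent.W_79d227_ls.Spec
import Pool.Agent.W_79d227_ls.Lift

/-!
Abstract conclusion (proofs row 584, (8)).
-/

set_option autoImplicit false

namespace Pool.Agent.W_79d227_ls

open Finset Pool.Agent.W_79d227_kp

variable {V : Type} [Fintype V] [DecidableEq V] {nb : V → V → Prop} {t : ℕ} {n : ℕ → ℝ} {T : ℝ}

open Classical in
/-- PROOF: `spec` for `X = {I // I ∈ NK nb t K}`, `A I J = if AK nb K I J then 1 else 0`,
`d = (∏ a ∈ range r, n (t + a)) / r!` (`row_AK`), `hgen` for `hB` (the sums over the subtype are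
sums over `NK nb t K`, `∑_z A x z A z y` is the number of `H` with `AK K x H ∧ AK K H y`). -/
theorem form_ge (hsym : ∀ a b, nb a b → nb b a) (hirr : ∀ v, ¬ nb v v) (hreg : Reg nb t n)
    {δ ε : ℝ} (hδ : 0 ≤ δ) (hε : 0 ≤ ε) (hε2 : 4 * δ ≤ ε ^ 2) (hgen : Gen nb t n δ)
    {K : Finset V} {r : ℕ} (h1 : 1 ≤ r) (hr : K.card + r = t) (hK : Cl nb K) (F : Finset V → ℝ) :
    -(ε * ((∏ a ∈ range r, n (t + a)) / (r.factorial : ℝ))) * ∑ I ∈ NK nb t K, F I ^ 2 ≤
      ∑ I ∈ NK nb t K, ∑ J ∈ NK nb t K, F I * F J * (if AK nb K I J then 1 else 0) := by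
  have hfac : (0 : ℝ) < (r.factorial : ℝ) := by exact_mod_cast r.factorial_pos
  set d : ℝ := (∏ a ∈ range r, n (t + a)) / (r.factorial : ℝ) with hd
  set N := NK nb t K with hN
  have hrow : ∀ x : N, ∑ y : N, (if AK nb K x.1 y.1 then (1 : ℝ) else 0) = d := fun x => by
    rw [Finset.sum_coe_sort N (fun J => if AK nb K x.1 J then (1 : ℝ) else 0), Finset.sum_boole, hd,
      eq_div_iff hfac.ne', mul_comm]
    exact row_AK hsym hirr hreg hr x.2
  have hprod : ∀ x y : N, ∑ z : N, (if AK nb K x.1 z.1 then (1 : ℝ) else 0) * (if AK nb K z.1 y.1 then (1 : ℝ) else 0)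
      = ((N.filter fun H => AK nb K x.1 H ∧ AK nb K H y.1).card : ℝ) := fun x y => by
    rw [Finset.sum_coe_sort N (fun H => (if AK nb K x.1 H then (1 : ℝ) else 0) * (if AK nb K H y.1 then (1 : ℝ) else 0)),
      ← Finset.sum_boole]
    refine sum_congr rfl fun H _ => ?_
    by_cases h2 : AK nb K x.1 H <;> by_cases h3 : AK nb K H y.1 <;> simp [h2, h3]
  have hcard : (Fintype.card N : ℝ) = N.card := by
    rw [Fintype.card_coe]
  have hB : ∀ x : N, ((univ.filter fun y : N =>
      ∑ z : N, (if AK nb K x.1 z.1 then (1 : ℝ) else 0) * (if AK nb K z.1 y.1 then (1 : ℝ) else 0)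
        < (1 - δ) * (d ^ 2 / Fintype.card N)).card : ℝ) ≤ δ * Fintype.card N := fun x => by
    have h4 := hgen r K h1 hr hK x.1 x.2
    rw [hcard]
    refine le_trans (le_of_eq ?_) h4
    rw [← Finset.sum_boole, ← Finset.sum_boole]
    simp only [hprod]
    exact Finset.sum_coe_sort N (fun J => if ((N.filter fun H => AK nb K x.1 H ∧ AK nb K H J).card : ℝ)
      < (1 - δ) * (d ^ 2 / N.card) then (1 : ℝ) else 0)
  have hmain := spec (X := N) (fun x y => if AK nb K x.1 y.1 then (1 : ℝ) else 0)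
    (fun x y => by
      have h5 : AK nb K x.1 y.1 ↔ AK nb K y.1 x.1 := ⟨AK_symm hsym, AK_symm hsym⟩
      simp only [h5])
    (fun x y => by
      show (0 : ℝ) ≤ if AK nb K x.1 y.1 then (1 : ℝ) else 0
      split_ifs <;> norm_num)
    hrow hδ hε hε2 hB (fun x => F x.1)
  have e1 : ∑ x : N, F x.1 ^ 2 = ∑ I ∈ N, F I ^ 2 := Finset.sum_coe_sort N (fun I => F I ^ 2)
  have e2 : ∑ x : N, ∑ y : N, F x.1 * F y.1 * (if AK nb K x.1 y.1 then (1 : ℝ) else 0)
      = ∑ I ∈ N, ∑ J ∈ N, F I * F J * (if AK nb K I J then 1 else 0) := by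
    rw [← Finset.sum_coe_sort N (fun I => ∑ J ∈ N, F I * F J * (if AK nb K I J then (1 : ℝ) else 0))]
    refine sum_congr rfl fun x _ => ?_
    exact Finset.sum_coe_sort N (fun J => F x.1 * F J * (if AK nb K x.1 J then (1 : ℝ) else 0))
  rw [e1, e2] at hmain
  exact hmain

/-- `c_(t+r) d ≤ c_t T ^ t`. PROOF: `cc n T (t + r) = cc n T t * ∏ a ∈ range r, (T - t - a) / n (t + a)`,
so the left side is `cc n T t * (∏ a ∈ range r, (T - t - a)) / r!`, and `0 ≤ T - t - a ≤ T`, `1 ≤ T`,
`r ≤ t`, `1 ≤ r!`. -/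
theorem cc_mul_le (hpos : ∀ j, j < 2 * t → 0 < n j) (hT : (2 * t : ℝ) ≤ T) (hT1 : 1 ≤ T) {r : ℕ}
    (hr : r ≤ t) :
    cc n T (t + r) * ((∏ a ∈ range r, n (t + a)) / (r.factorial : ℝ)) ≤ cc n T t * T ^ t := by
  have hfac : (1 : ℝ) ≤ (r.factorial : ℝ) := by exact_mod_cast r.factorial_pos
  have hcc : 0 ≤ cc n T t := by
    unfold cc
    refine prod_nonneg fun i hi => ?_
    have hi' := mem_range.1 hi
    have h1 : (i : ℝ) ≤ t := by exact_mod_cast hi'.le
    have h2 : (0 : ℝ) ≤ t := Nat.cast_nonneg _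
    exact div_nonneg (by linarith) (hpos i (by omega)).le
  have hsplit : cc n T (t + r) = cc n T t * ∏ a ∈ range r, (T - ((t + a : ℕ) : ℝ)) / n (t + a) := by
    unfold cc
    rw [prod_range_add]
  have hprod : (∏ a ∈ range r, (T - ((t + a : ℕ) : ℝ)) / n (t + a)) * ∏ a ∈ range r, n (t + a)
      = ∏ a ∈ range r, (T - ((t + a : ℕ) : ℝ)) := by
    rw [← prod_mul_distrib]
    refine prod_congr rfl fun a ha => ?_
    have ha' := mem_range.1 ha
    exact div_mul_cancel₀ _ (hpos (t + a) (by omega)).ne'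
  have hle : ∏ a ∈ range r, (T - ((t + a : ℕ) : ℝ)) ≤ T ^ r := by
    have h1 : ∏ a ∈ range r, (T - ((t + a : ℕ) : ℝ)) ≤ ∏ _a ∈ range r, T := by
      refine prod_le_prod (fun a ha => ?_) fun a ha => ?_
      · have ha' := mem_range.1 ha
        have h2 : ((t + a : ℕ) : ℝ) ≤ 2 * t := by
          have : t + a ≤ 2 * t := by omega
          exact_mod_cast this
        linarith
      · have h2 : (0 : ℝ) ≤ ((t + a : ℕ) : ℝ) := Nat.cast_nonneg _
        linarith
    simpa using h1
  have h0 : 0 ≤ ∏ a ∈ range r, (T - ((t + a : ℕ) : ℝ)) := by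
    refine prod_nonneg fun a ha => ?_
    have ha' := mem_range.1 ha
    have h2 : ((t + a : ℕ) : ℝ) ≤ 2 * t := by
      have : t + a ≤ 2 * t := by omega
      exact_mod_cast this
    linarith
  have e : cc n T (t + r) * ((∏ a ∈ range r, n (t + a)) / (r.factorial : ℝ))
      = cc n T t * ((∏ a ∈ range r, (T - ((t + a : ℕ) : ℝ))) / (r.factorial : ℝ)) := by
    rw [hsplit, ← hprod]
    ring
  rw [e]
  refine mul_le_mul_of_nonneg_left ?_ hcc
  refine (div_le_self h0 hfac).trans (hle.trans ?_)
  exact pow_le_pow_right₀ hT1 hr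

/-- Every `t`-clique has at most `2 ^ t` subsets: interchange the sums. -/
theorem sum_sub_le (F : Finset V → ℝ) :
    ∑ K ∈ univ.filter (fun K : Finset V => K.card < t), ∑ I ∈ NK nb t K, F I ^ 2 ≤
      2 ^ t * ∑ I ∈ NK nb t ∅, F I ^ 2 := by
  classical
  have h1 : ∀ K : Finset V, ∑ I ∈ NK nb t K, F I ^ 2 = ∑ I ∈ NK nb t ∅, if K ⊆ I then F I ^ 2 else 0 := fun K => by
    rw [← sum_filter]
    refine sum_congr ?_ fun _ _ => rfl
    ext I
    simp only [NK, mem_filter, mem_univ, true_and, empty_subset]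
    tauto
  rw [sum_congr rfl fun K _ => h1 K, sum_comm, mul_sum]
  refine sum_le_sum fun I hI => ?_
  have hcard : I.card = t := by
    simp only [NK, mem_filter, mem_univ, true_and] at hI
    exact hI.1
  rw [← sum_filter, sum_const, nsmul_eq_mul]
  refine mul_le_mul_of_nonneg_right ?_ (sq_nonneg _)
  have h2 : ((univ.filter fun K : Finset V => K.card < t).filter fun K => K ⊆ I) ⊆ I.powerset := by
    intro K hK
    rw [mem_filter] at hK
    exact mem_powerset.2 hK.2
  have h3 := card_le_card h2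
  rw [card_powerset, hcard] at h3
  exact_mod_cast h3

/-- The form on `t`-sets is nonnegative. PROOF: `form_eq`. The terms with `|K| > t` are zero (`NK`
empty), the terms with `|K| = t` add up to `cc n T t * ∑ I ∈ NK nb t ∅, F I ^ 2` (`NK nb t K = {K}` if
`K` is a clique, `AK nb K K K` is vacuous), the terms with `|K| < t` are at least
`- ε cc n T t T ^ t ∑ I ∈ NK nb t K, F I ^ 2` (`form_ge` with `r = t - |K|`, `cc_mul_le`; zero if `K` is not a
clique, since then `NK nb t K` is empty), `sum_sub_le`, and `ε 2 ^ t T ^ t ≤ 1`. -/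
theorem top_form (hsym : ∀ a b, nb a b → nb b a) (hirr : ∀ v, ¬ nb v v) (hreg : Reg nb t n)
    (hpos : ∀ j, j < 2 * t → 0 < n j) (hT : (2 * t : ℝ) ≤ T) (hT1 : 1 ≤ T)
    {δ ε : ℝ} (hδ : 0 ≤ δ) (hε : 0 ≤ ε) (hε2 : 4 * δ ≤ ε ^ 2) (hε3 : ε * (2 ^ t * T ^ t) ≤ 1)
    (hgen : Gen nb t n δ) (F : Finset V → ℝ) :
    0 ≤ ∑ I ∈ univ.filter (fun I : Finset V => I.card = t),
      ∑ J ∈ univ.filter (fun J : Finset V => J.card = t), F I * F J * mom nb n T (I ∪ J) := by
  classical
  have hcc : 0 ≤ cc n T t := by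
    unfold cc
    refine prod_nonneg fun i hi => ?_
    have hi' := mem_range.1 hi
    have h1 : (i : ℝ) ≤ t := by exact_mod_cast hi'.le
    have h2 : (0 : ℝ) ≤ t := Nat.cast_nonneg _
    exact div_nonneg (by linarith) (hpos i (by omega)).le
  rw [form_eq hsym hirr F]
  have hterm : ∀ K : Finset V,
      (if K.card = t then cc n T t * ∑ I ∈ NK nb t K, F I ^ 2 else 0)
        - (if K.card < t then ε * T ^ t * cc n T t * ∑ I ∈ NK nb t K, F I ^ 2 else 0)
      ≤ cc n T (2 * t - K.card) *
      ∑ I ∈ NK nb t K, ∑ J ∈ NK nb t K, F I * F J * (if AK nb K I J then 1 else 0) := fun K => by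
    rcases lt_trichotomy K.card t with hlt | heq | hgt
    · rw [if_neg hlt.ne, if_pos hlt]
      by_cases hK : Cl nb K
      · obtain ⟨r, hr⟩ : ∃ r, K.card + r = t := ⟨t - K.card, by omega⟩
        have h1 : 1 ≤ r := by omega
        have hrt : r ≤ t := by omega
        have hF := form_ge hsym hirr hreg hδ hε hε2 hgen h1 hr hK F
        have hc := cc_mul_le (n := n) hpos hT hT1 hrt
        have e : 2 * t - K.card = t + r := by omega
        rw [e]
        have hcr : 0 ≤ cc n T (t + r) := by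
          unfold cc
          refine prod_nonneg fun i hi => ?_
          have hi' := mem_range.1 hi
          have h1 : (i : ℝ) ≤ 2 * t := by
            have : i ≤ 2 * t := by omega
            exact_mod_cast this
          exact div_nonneg (by linarith) (hpos i (by omega)).le
        have h2 := mul_le_mul_of_nonneg_left hF hcr
        refine le_trans ?_ h2
        have hS : 0 ≤ ∑ I ∈ NK nb t K, F I ^ 2 := sum_nonneg fun _ _ => sq_nonneg _
        have h3 := mul_le_mul_of_nonneg_right (mul_le_mul_of_nonneg_left hc hε) hS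
        have e1 : cc n T (t + r) * (-(ε * ((∏ a ∈ range r, n (t + a)) / (r.factorial : ℝ))) * ∑ I ∈ NK nb t K, F I ^ 2)
            = -(ε * (cc n T (t + r) * ((∏ a ∈ range r, n (t + a)) / (r.factorial : ℝ))) * ∑ I ∈ NK nb t K, F I ^ 2) := by
          ring
        rw [e1]
        have e2 : ε * (cc n T t * T ^ t) * ∑ I ∈ NK nb t K, F I ^ 2
            = ε * T ^ t * cc n T t * ∑ I ∈ NK nb t K, F I ^ 2 := by ring
        rw [e2] at h3
        linarith
      · have h1 : NK nb t K = ∅ := by
          apply eq_empty_of_forall_notMem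
          intro I hI
          simp only [NK, mem_filter, mem_univ, true_and] at hI
          exact hK fun a ha b hb hab => hI.2.2 a (hI.2.1 ha) b (hI.2.1 hb) hab
        rw [h1]
        simp
    · rw [if_pos heq, if_neg heq.not_lt, sub_zero]
      have e : 2 * t - K.card = t := by omega
      rw [e]
      refine mul_le_mul_of_nonneg_left (le_of_eq ?_) hcc
      have hI : ∀ I ∈ NK nb t K, I = K := fun I hI => by
        simp only [NK, mem_filter, mem_univ, true_and] at hI
        exact (eq_of_subset_of_card_le hI.2.1 (by omega)).symm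
      by_cases hK : Cl nb K
      · have h1 : NK nb t K = {K} := by
          ext I
          rw [mem_singleton]
          refine ⟨hI I, fun h => ?_⟩
          subst h
          simp only [NK, mem_filter, mem_univ, true_and]
          exact ⟨heq, subset_refl _, hK⟩
        rw [h1, sum_singleton, sum_singleton, sum_singleton]
        have h2 : AK nb K K K := fun a ha => by simp at ha
        rw [if_pos h2]
        ring
      · have h1 : NK nb t K = ∅ := by
          apply eq_empty_of_forall_notMem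
          intro I hI
          simp only [NK, mem_filter, mem_univ, true_and] at hI
          exact hK fun a ha b hb hab => hI.2.2 a (hI.2.1 ha) b (hI.2.1 hb) hab
        rw [h1]
        simp
    · rw [if_neg hgt.ne', if_neg (by omega)]
      have h1 : NK nb t K = ∅ := by
        apply eq_empty_of_forall_notMem
        intro I hI
        simp only [NK, mem_filter, mem_univ, true_and] at hI
        have := card_le_card hI.2.1
        omega
      rw [h1]
      simp
  refine le_trans ?_ (sum_le_sum fun K _ => hterm K)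
  rw [sum_sub_distrib, ← sum_filter, ← sum_filter, ← mul_sum, ← mul_sum]
  have htop : ∑ K ∈ univ.filter (fun K : Finset V => K.card = t), ∑ I ∈ NK nb t K, F I ^ 2
      = ∑ I ∈ NK nb t ∅, F I ^ 2 := by
    have h1 : ∀ K ∈ univ.filter (fun K : Finset V => K.card = t), ∑ I ∈ NK nb t K, F I ^ 2
        = if Cl nb K then F K ^ 2 else 0 := fun K hK => by
      have heq := (mem_filter.1 hK).2
      split_ifs with hC
      · have h1 : NK nb t K = {K} := by
          ext I
          rw [mem_singleton]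
          constructor
          · intro hI
            simp only [NK, mem_filter, mem_univ, true_and] at hI
            exact (eq_of_subset_of_card_le hI.2.1 (by omega)).symm
          · intro h
            subst h
            simp only [NK, mem_filter, mem_univ, true_and]
            exact ⟨heq, subset_refl _, hC⟩
        rw [h1, sum_singleton]
      · have h1 : NK nb t K = ∅ := by
          apply eq_empty_of_forall_notMem
          intro I hI
          simp only [NK, mem_filter, mem_univ, true_and] at hI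
          exact hC fun a ha b hb hab => hI.2.2 a (hI.2.1 ha) b (hI.2.1 hb) hab
        rw [h1, sum_empty]
    rw [sum_congr rfl h1, ← sum_filter, filter_filter]
    refine sum_congr ?_ fun _ _ => rfl
    ext I
    simp only [NK, mem_filter, mem_univ, true_and, empty_subset]
  rw [htop]
  have hsub := sum_sub_le (nb := nb) (t := t) F
  have hS : 0 ≤ ∑ I ∈ NK nb t ∅, F I ^ 2 := sum_nonneg fun _ _ => sq_nonneg _
  have hT0 : 0 ≤ T ^ t := pow_nonneg (by linarith) _
  have hc2 : 0 ≤ ε * T ^ t * cc n T t := mul_nonneg (mul_nonneg hε hT0) hcc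
  have h3 := mul_le_mul_of_nonneg_left hsub hc2
  have h4 : ε * T ^ t * cc n T t * (2 ^ t * ∑ I ∈ NK nb t ∅, F I ^ 2)
      = ε * (2 ^ t * T ^ t) * (cc n T t * ∑ I ∈ NK nb t ∅, F I ^ 2) := by ring
  rw [h4] at h3
  have h5 := mul_le_mul_of_nonneg_right hε3 (mul_nonneg hcc hS)
  linarith

/-- PROOF: `psd_of_top`, `rel_mom`, `top_form`; the value is `rel_mom` for `S = ∅` (`0 < t`). `hG` says that
the edges of `G` are the unrelated pairs of distinct vertices, so `mom I = 0` if `I` contains an edge. -/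
theorem lasserre_mom {G : SimpleGraph V} (hG : ∀ a b, G.Adj a b → a ≠ b ∧ ¬ nb a b)
    (ht : 1 ≤ t) (hsym : ∀ a b, nb a b → nb b a) (hirr : ∀ v, ¬ nb v v) (hreg : Reg nb t n)
    (hpos : ∀ j, j < 2 * t → 0 < n j) (hT : (2 * t : ℝ) ≤ T) (hT1 : 1 ≤ T)
    {δ ε : ℝ} (hδ : 0 ≤ δ) (hε : 0 ≤ ε) (hε2 : 4 * δ ≤ ε ^ 2) (hε3 : ε * (2 ^ t * T ^ t) ≤ 1)
    (hgen : Gen nb t n δ) :
    Lasserre G t (mom nb n T) ∧ ∑ v, mom nb n T {v} = T := by
  classical
  have hrel := rel_mom (T := T) hsym hirr hreg hpos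
  have ht0 : (0 : ℝ) ≤ t := Nat.cast_nonneg _
  refine ⟨⟨mom_empty, ?_, ?_⟩, ?_⟩
  · intro I a ha b hb hab
    unfold mom
    rw [if_neg]
    intro hC
    exact (hG a b hab).2 (hC a ha b hb (hG a b hab).1)
  · exact psd_of_top hrel (by linarith) (top_form hsym hirr hreg hpos hT hT1 hδ hε hε2 hε3 hgen)
  · have h1 := hrel ∅ (by simp; omega)
    simp only [notMem_empty, not_false_eq_true, filter_true, card_empty, Nat.cast_zero, sub_zero,
      mom_empty, mul_one, insert_empty_eq] at h1
    exact h1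

end Pool.Agent.W_79d227_ls
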