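import Pool.Agent.W_79d227_ls.RegX

/-!
Continuations which keep independence (proofs row 584, (9)(a), (c)).
-/

set_option autoImplicit false

namespace Pool.Agent.W_79d227_ls

open Finset

variable {p m : ℕ} [Fact p.Prime]

/-- adding a vector outside the span keeps independence -/
theorem LX_insert {S : Finset (Vx p m)} (h : LX S) {v : Vx p m} (hv : v.1.1 ∉ spX S) :
    v ∉ S ∧ LX (insert v S) := by
  have hvS : v ∉ S := fun hS => hv (Submodule.subset_span ⟨v, Finset.mem_coe.2 hS, rfl⟩)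
  refine ⟨hvS, ?_⟩
  unfold LX
  rw [Finset.coe_insert]
  exact (linearIndepOn_insert (Finset.mem_coe.not.2 hvS)).2 ⟨h, hv⟩

theorem LY_insert {S : Finset (Vx p m)} (h : LY S) {v : Vx p m} (hv : v.1.2 ∉ spY S) :
    v ∉ S ∧ LY (insert v S) := by
  have hvS : v ∉ S := fun hS => hv (Submodule.subset_span ⟨v, Finset.mem_coe.2 hS, rfl⟩)
  refine ⟨hvS, ?_⟩
  unfold LY
  rw [Finset.coe_insert]
  exact (linearIndepOn_insert (Finset.mem_coe.not.2 hvS)).2 ⟨h, hv⟩

open Classical in
/-- PROOF: at most `p ^ |S|` first components (`card_span_le`), and for each at most `p ^ (m - |C|)` second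
components (`card_sol` for the first components of `C`, without the equation `⟨z, w⟩ = 2`). -/
theorem bad_X {C S : Finset (Vx p m)} (hC : LX C) :
    ((cn nb C).filter fun v => v.1.1 ∈ spX S).card * p ^ C.card ≤ p ^ (m + S.card) := by
  have h1 := card_sol (fun v : Vx p m => v.1.1) C hC (fun _ => 1)
  have h2 := card_span_le (fun v : Vx p m => v.1.1) S
  set A := univ.filter fun z : Fin m → ZMod p =>
    z ∈ Submodule.span (ZMod p) ((fun v : Vx p m => v.1.1) '' (S : Set (Vx p m))) with hA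
  set B := univ.filter fun z : Fin m → ZMod p => ∀ i ∈ C, ip i.1.1 z = 1 with hB
  have h3 : ((cn nb C).filter fun v => v.1.1 ∈ spX S).card ≤ (A ×ˢ B).card := by
    refine Finset.card_le_card_of_injOn (fun v => v.1) ?_ ?_
    · intro v hv
      have hv' := Finset.mem_filter.1 (Finset.mem_coe.1 hv)
      apply Finset.mem_coe.2
      rw [Finset.mem_product, hA, hB, Finset.mem_filter, Finset.mem_filter]
      refine ⟨⟨Finset.mem_univ _, hv'.2⟩, Finset.mem_univ _, fun s hs => ?_⟩
      exact (mem_cn.1 hv'.1 s hs).2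
    · intro v _ w _ h
      exact Subtype.ext h
  rw [Finset.card_product] at h3
  calc ((cn nb C).filter fun v => v.1.1 ∈ spX S).card * p ^ C.card
      ≤ (A.card * B.card) * p ^ C.card := Nat.mul_le_mul_right _ h3
    _ = A.card * (B.card * p ^ C.card) := by ring
    _ = A.card * p ^ m := by rw [h1]
    _ ≤ p ^ S.card * p ^ m := Nat.mul_le_mul_right _ h2
    _ = p ^ (m + S.card) := by rw [pow_add]; ring

open Classical in
theorem bad_Y {C S : Finset (Vx p m)} (hC : LY C) :
    ((cn nb C).filter fun v => v.1.2 ∈ spY S).card * p ^ C.card ≤ p ^ (m + S.card) := by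
  have h1 := card_sol (fun v : Vx p m => v.1.2) C hC (fun _ => 1)
  have h2 := card_span_le (fun v : Vx p m => v.1.2) S
  set A := univ.filter fun z : Fin m → ZMod p =>
    z ∈ Submodule.span (ZMod p) ((fun v : Vx p m => v.1.2) '' (S : Set (Vx p m))) with hA
  set B := univ.filter fun z : Fin m → ZMod p => ∀ i ∈ C, ip i.1.2 z = 1 with hB
  have h3 : ((cn nb C).filter fun v => v.1.2 ∈ spY S).card ≤ (B ×ˢ A).card := by
    refine Finset.card_le_card_of_injOn (fun v => v.1) ?_ ?_
    · intro v hv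
      have hv' := Finset.mem_filter.1 (Finset.mem_coe.1 hv)
      apply Finset.mem_coe.2
      rw [Finset.mem_product, hA, hB, Finset.mem_filter, Finset.mem_filter]
      refine ⟨⟨Finset.mem_univ _, fun s hs => ?_⟩, Finset.mem_univ _, hv'.2⟩
      rw [ip_comm]
      exact (mem_cn.1 hv'.1 s hs).1
    · intro v _ w _ h
      exact Subtype.ext h
  rw [Finset.card_product] at h3
  calc ((cn nb C).filter fun v => v.1.2 ∈ spY S).card * p ^ C.card
      ≤ (B.card * A.card) * p ^ C.card := Nat.mul_le_mul_right _ h3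
    _ = A.card * (B.card * p ^ C.card) := by ring
    _ = A.card * p ^ m := by rw [h1]
    _ ≤ p ^ S.card * p ^ m := Nat.mul_le_mul_right _ h2
    _ = p ^ (m + S.card) := by rw [pow_add]; ring

private lemma Bad_div {a c s : ℕ} (hcs : c ≤ s) (h : a * p ^ c ≤ p ^ (m + s)) :
    (a : ℝ) ≤ (p : ℝ) ^ (m + (s - c)) := by
  have hp : 0 < p := (Fact.out : p.Prime).pos
  have h1 : p ^ (m + s) = p ^ (m + (s - c)) * p ^ c := by
    rw [← pow_add]
    congr 1
    omega
  rw [h1] at h
  have h2 : a ≤ p ^ (m + (s - c)) := Nat.le_of_mul_le_mul_right h (pow_pos hp c)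
  exact_mod_cast h2

open Classical in
/-- PROOF: `bad_X`, `bad_Y`. -/
theorem good_ge {C S : Finset (Vx p m)} (hX : LX C) (hY : LY C) (hCS : C.card ≤ S.card) :
    ((cn nb C).card : ℝ) - 2 * (p : ℝ) ^ (m + (S.card - C.card)) ≤
      (((cn nb C).filter fun v => v.1.1 ∉ spX S ∧ v.1.2 ∉ spY S).card : ℝ) := by
  have h1 := Bad_div hCS (bad_X (S := S) hX)
  have h2 := Bad_div hCS (bad_Y (S := S) hY)
  have h3 : cn nb C ⊆ ((cn nb C).filter fun v => v.1.1 ∉ spX S ∧ v.1.2 ∉ spY S) ∪
      (((cn nb C).filter fun v => v.1.1 ∈ spX S) ∪ ((cn nb C).filter fun v => v.1.2 ∈ spY S)) := by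
    intro v hv
    by_cases hx : v.1.1 ∈ spX S
    · exact Finset.mem_union_right _ (Finset.mem_union_left _ (Finset.mem_filter.2 ⟨hv, hx⟩))
    · by_cases hy : v.1.2 ∈ spY S
      · exact Finset.mem_union_right _ (Finset.mem_union_right _ (Finset.mem_filter.2 ⟨hv, hy⟩))
      · exact Finset.mem_union_left _ (Finset.mem_filter.2 ⟨hv, hx, hy⟩)
  have h4 := (Finset.card_le_card h3).trans ((Finset.card_union_le _ _).trans
    (Nat.add_le_add_left (Finset.card_union_le _ _) _))
  have h5 : ((cn nb C).card : ℝ) ≤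
      (((cn nb C).filter fun v => v.1.1 ∉ spX S ∧ v.1.2 ∉ spY S).card : ℝ) +
      ((((cn nb C).filter fun v => v.1.1 ∈ spX S).card : ℝ) +
        (((cn nb C).filter fun v => v.1.2 ∈ spY S).card : ℝ)) := by
    exact_mod_cast h4
  linarith

/-- PROOF: `card_cn_eq`; there are at least `p ^ (m - q) - p ^ q` vectors `z` outside `spX S` (`card_sol` for the
second components, `card_span_le`), each with `p ^ (m - q - 1)` vectors `w` (`card_sol_succ`). -/
theorem card_cn_ge {S : Finset (Vx p m)} (hX : LX S) (hY : LY S) (hq : S.card < m) :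
    ((p : ℝ) ^ (m - S.card) - (p : ℝ) ^ S.card) * (p : ℝ) ^ (m - S.card - 1) ≤
      ((cn nb S).card : ℝ) := by
  classical
  have hp : 0 < p := (Fact.out : p.Prime).pos
  rw [card_cn_eq]
  have h1 := card_sol (fun v : Vx p m => v.1.2) S hY (fun _ => 1)
  have h2 := card_span_le (fun v : Vx p m => v.1.1) S
  set B := univ.filter fun z : Fin m → ZMod p => ∀ s ∈ S, ip s.1.2 z = 1 with hB
  set A := univ.filter fun z : Fin m → ZMod p =>
    z ∈ Submodule.span (ZMod p) ((fun v : Vx p m => v.1.1) '' (S : Set (Vx p m))) with hA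
  have hBc : B.card = p ^ (m - S.card) := by
    have e : p ^ m = p ^ (m - S.card) * p ^ S.card := by
      rw [← pow_add]
      congr 1
      omega
    rw [e] at h1
    exact Nat.eq_of_mul_eq_mul_right (pow_pos hp _) h1
  have hw : ∀ z ∈ B \ A,
      (univ.filter fun w : Fin m → ZMod p => (∀ s ∈ S, ip s.1.1 w = 1) ∧ ip z w = 2).card
        = p ^ (m - S.card - 1) := by
    intro z hz
    have hz2 : z ∉ Submodule.span (ZMod p) ((fun v : Vx p m => v.1.1) '' (S : Set (Vx p m))) := by
      intro h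
      exact (Finset.mem_sdiff.1 hz).2 (Finset.mem_filter.2 ⟨Finset.mem_univ _, h⟩)
    have h3 := card_sol_succ (fun v : Vx p m => v.1.1) S hX (fun _ => 1) z hz2 2
    have e : p ^ m = p ^ (m - S.card - 1) * p ^ (S.card + 1) := by
      rw [← pow_add]
      congr 1
      omega
    rw [e] at h3
    exact Nat.eq_of_mul_eq_mul_right (pow_pos hp _) h3
  have h4 : (B \ A).card * p ^ (m - S.card - 1) ≤ ∑ z ∈ B,
      (univ.filter fun w : Fin m → ZMod p => (∀ s ∈ S, ip s.1.1 w = 1) ∧ ip z w = 2).card := by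
    calc (B \ A).card * p ^ (m - S.card - 1)
        = ∑ z ∈ B \ A,
          (univ.filter fun w : Fin m → ZMod p => (∀ s ∈ S, ip s.1.1 w = 1) ∧ ip z w = 2).card := by
          rw [Finset.sum_congr rfl hw, Finset.sum_const, smul_eq_mul]
      _ ≤ _ := Finset.sum_le_sum_of_subset Finset.sdiff_subset
  have h5 : B.card ≤ (B \ A).card + A.card := by
    have := Finset.le_card_sdiff A B
    omega
  have h6 : ((p : ℝ) ^ (m - S.card)) ≤ ((B \ A).card : ℝ) + (p : ℝ) ^ S.card := by
    have : p ^ (m - S.card) ≤ (B \ A).card + p ^ S.card := by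
      rw [← hBc]
      exact h5.trans (Nat.add_le_add_left h2 _)
    exact_mod_cast this
  have h7 : ((B \ A).card : ℝ) * (p : ℝ) ^ (m - S.card - 1) ≤ ((∑ z ∈ B,
      (univ.filter fun w : Fin m → ZMod p => (∀ s ∈ S, ip s.1.1 w = 1) ∧ ip z w = 2).card : ℕ) : ℝ) := by
    exact_mod_cast h4
  refine le_trans ?_ h7
  exact mul_le_mul_of_nonneg_right (by linarith) (by positivity)

open Classical in
/-- PROOF: `card_cn_ge`, `good_ge` with `C = S`, and `p ^ q p ^ (m - q - 1) ≤ p ^ m`. -/
theorem good_self {S : Finset (Vx p m)} (hX : LX S) (hY : LY S) (hq : S.card < m) :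
    (p : ℝ) ^ (2 * (m - S.card) - 1) - 3 * (p : ℝ) ^ m ≤
      (((cn nb S).filter fun v => v.1.1 ∉ spX S ∧ v.1.2 ∉ spY S).card : ℝ) := by
  have hp : 1 ≤ p := (Fact.out : p.Prime).pos
  have hp' : (1 : ℝ) ≤ (p : ℝ) := by exact_mod_cast hp
  have h1 := card_cn_ge hX hY hq
  have h2 := good_ge (S := S) hX hY le_rfl
  rw [Nat.sub_self, Nat.add_zero] at h2
  have e1 : (p : ℝ) ^ (m - S.card) * (p : ℝ) ^ (m - S.card - 1) = (p : ℝ) ^ (2 * (m - S.card) - 1) := by
    rw [← pow_add]
    congr 1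
    omega
  have e2 : (p : ℝ) ^ S.card * (p : ℝ) ^ (m - S.card - 1) ≤ (p : ℝ) ^ m := by
    rw [← pow_add]
    exact pow_le_pow_right₀ hp' (by omega)
  rw [sub_mul, e1] at h1
  linarith

end Pool.Agent.W_79d227_ls
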