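import Pool.Agent.W_79d227_ls.Defs

/-!
The moments satisfy the linear relations (proofs row 584, (3)).
-/

set_option autoImplicit false

namespace Pool.Agent.W_79d227_ls

open Finset

variable {V : Type} [Fintype V] [DecidableEq V] {nb : V → V → Prop} {t : ℕ} {n : ℕ → ℝ} {T : ℝ}

theorem Cl.mono {S S' : Finset V} (h : Cl nb S) (hS : S' ⊆ S) : Cl nb S' := by
  intro a ha b hb hab
  exact h a (hS ha) b (hS hb) hab

theorem mem_cn {S : Finset V} {v : V} : v ∈ cn nb S ↔ ∀ s ∈ S, nb v s := by
  unfold cn
  simp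

theorem mem_NK {K I : Finset V} : I ∈ NK nb t K ↔ I.card = t ∧ K ⊆ I ∧ Cl nb I := by
  unfold NK
  simp

theorem notMem_of_cn (hirr : ∀ v, ¬ nb v v) {S : Finset V} {v : V} (hv : v ∈ cn nb S) : v ∉ S := by
  intro h
  exact hirr v (mem_cn.mp hv v h)

/-- `insert v S` is a clique iff `S` is a clique and `v` is a common neighbour (`v ∉ S`). -/
theorem cl_insert (hsym : ∀ a b, nb a b → nb b a) {S : Finset V} {v : V} (hv : v ∉ S) :
    Cl nb (insert v S) ↔ Cl nb S ∧ v ∈ cn nb S := by
  constructor
  · intro h
    refine ⟨h.mono (Finset.subset_insert v S), ?_⟩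
    rw [mem_cn]
    intro s hs
    refine h v (Finset.mem_insert_self v S) s (Finset.mem_insert_of_mem hs) ?_
    intro he
    exact hv (he ▸ hs)
  · rintro ⟨h, hc⟩ a ha b hb hab
    rw [mem_cn] at hc
    rw [Finset.mem_insert] at ha hb
    rcases ha with rfl | ha
    · rcases hb with rfl | hb
      · exact absurd rfl hab
      · exact hc b hb
    · rcases hb with rfl | hb
      · exact hsym _ _ (hc a ha)
      · exact h a ha b hb hab

theorem cc_succ (n : ℕ → ℝ) (T : ℝ) (j : ℕ) : cc n T (j + 1) = cc n T j * ((T - j) / n j) := by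
  unfold cc
  rw [Finset.prod_range_succ]

theorem cc_nonneg (hpos : ∀ j, j < 2 * t → 0 < n j) (hT : (2 * t : ℝ) ≤ T) {j : ℕ} (hj : j ≤ 2 * t) :
    0 ≤ cc n T j := by
  unfold cc
  apply Finset.prod_nonneg
  intro i hi
  rw [Finset.mem_range] at hi
  have h1 : i < 2 * t := lt_of_lt_of_le hi hj
  have h2 : (i : ℝ) ≤ 2 * t := by exact_mod_cast h1.le
  exact div_nonneg (by linarith) (hpos i h1).le

theorem mom_empty : mom nb n T (∅ : Finset V) = 1 := by
  unfold mom
  rw [if_pos]
  · simp [cc]
  · intro a ha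
    simp at ha

/-- PROOF: if `S` is not a clique both sides are `0`. Otherwise the nonzero terms are the `v ∈ cn nb S`
(`cl_insert`, `notMem_of_cn`), each equal to `cc n T (|S| + 1)`; there are `n |S|` of them. -/
theorem rel_mom (hsym : ∀ a b, nb a b → nb b a) (hirr : ∀ v, ¬ nb v v) (hreg : Reg nb t n)
    (hpos : ∀ j, j < 2 * t → 0 < n j) : Rel (mom nb n T) t T := by
  classical
  intro S hS
  by_cases hcl : Cl nb S
  · have h1 : ∑ v ∈ univ.filter (fun v => v ∉ S), mom nb n T (insert v S)
        = ∑ v ∈ cn nb S, cc n T (S.card + 1) := by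
      symm
      apply Finset.sum_subset_zero_on_sdiff
      · intro v hv
        rw [Finset.mem_filter]
        exact ⟨Finset.mem_univ v, notMem_of_cn hirr hv⟩
      · intro v hv
        rw [Finset.mem_sdiff, Finset.mem_filter] at hv
        unfold mom
        rw [if_neg]
        intro h
        exact hv.2 ((cl_insert hsym hv.1.2).mp h).2
      · intro v hv
        have hvS := notMem_of_cn hirr hv
        unfold mom
        rw [if_pos ((cl_insert hsym hvS).mpr ⟨hcl, hv⟩), Finset.card_insert_of_notMem hvS]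
    rw [h1, Finset.sum_const, nsmul_eq_mul, hreg S hcl hS, cc_succ]
    have h2 : mom nb n T S = cc n T S.card := by
      unfold mom
      rw [if_pos hcl]
    rw [h2]
    have h3 := hpos S.card hS
    field_simp
  · have h2 : mom nb n T S = 0 := by
      unfold mom
      rw [if_neg hcl]
    rw [h2, mul_zero]
    apply Finset.sum_eq_zero
    intro v _
    unfold mom
    rw [if_neg]
    intro h
    exact hcl (h.mono (Finset.subset_insert v S))

end Pool.Agent.W_79d227_ls
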