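import Pool.Agent.W_79d227_ls.Lin
import Pool.Agent.W_79d227_ls.MomRel

/-!
Cliques of the relation `nb` are independent families (proofs row 584, (1)).
-/

set_option autoImplicit false

namespace Pool.Agent.W_79d227_ls

open Finset Pool.Agent.W_79d227_kp

variable {p m : ℕ} [Fact p.Prime]

omit [Fact p.Prime] in
theorem nb_symm (v w : Vx p m) (h : nb v w) : nb w v := ⟨h.2, h.1⟩

/-- `2 ≠ 1`. -/
theorem nb_irrefl (v : Vx p m) : ¬ nb v v := by
  intro h
  have h1 : (2 : ZMod p) = 1 := v.2.symm.trans h.1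
  have h2 : (1 : ZMod p) = 0 := by linear_combination h1
  exact one_ne_zero h2

theorem Clq_ind {S : Finset (Vx p m)} (x : Vx p m → Fin m → ZMod p) (x' : Vx p m → Fin m → ZMod p)
    (h2 : ∀ v, ip (x v) (x' v) = 2) (h1 : ∀ v ∈ S, ∀ w ∈ S, v ≠ w → ip (x v) (x' w) = 1)
    (h : ((S.card : ZMod p) + 1) ≠ 0) : LinearIndepOn (ZMod p) x (S : Set (Vx p m)) := by
  classical
  rw [linearIndepOn_finset_iff]
  intro g hg
  have key : ∀ j ∈ S, (∑ i ∈ S, g i) + g j = 0 := by
    intro j hj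
    have e1 : ip (x' j) (∑ i ∈ S, g i • x i) = 0 := by
      rw [hg]
      unfold ip
      simp
    rw [ip_sum] at e1
    rw [← e1]
    have e2 : ∀ i ∈ S, ip (x' j) (g i • x i) = g i + if i = j then g i else 0 := by
      intro i hi
      rw [ip_smul, ip_comm]
      by_cases hij : i = j
      · rw [hij, h2, if_pos rfl]
        ring
      · rw [h1 i hi j hj hij, if_neg hij]
        ring
    rw [Finset.sum_congr rfl e2, Finset.sum_add_distrib, Finset.sum_ite_eq' S j g, if_pos hj]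
  have h3 : ((S.card : ZMod p) + 1) * (∑ i ∈ S, g i) = 0 := by
    have h4 : ∑ j ∈ S, ((∑ i ∈ S, g i) + g j) = 0 := Finset.sum_eq_zero key
    rw [Finset.sum_add_distrib, Finset.sum_const, nsmul_eq_mul] at h4
    linear_combination h4
  have h5 := (mul_eq_zero.1 h3).resolve_left h
  intro j hj
  have h6 := key j hj
  rw [h5, zero_add] at h6
  exact h6

/-- PROOF: `∑ λ_s x_s = 0`, pair with `x'_j`: `λ_j + ∑ λ = 0` (`⟨x_s, x'_j⟩ = 1` for `s ≠ j`, `= 2` for
`s = j`); so `∑ λ = - |S| ∑ λ`, hence `∑ λ = 0` and `λ_j = 0`. -/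
theorem LX_of_cl {S : Finset (Vx p m)} (hS : Cl nb S) (h : ((S.card : ZMod p) + 1) ≠ 0) : LX S :=
  Clq_ind (fun v => v.1.1) (fun v => v.1.2) (fun v => v.2)
    (fun v hv w hw hvw => (hS v hv w hw hvw).1) h

theorem LY_of_cl {S : Finset (Vx p m)} (hS : Cl nb S) (h : ((S.card : ZMod p) + 1) ≠ 0) : LY S :=
  Clq_ind (fun v => v.1.2) (fun v => v.1.1) (fun v => by rw [ip_comm]; exact v.2)
    (fun v hv w hw hvw => by rw [ip_comm]; exact (hS v hv w hw hvw).2) h

/-- `j ≠ 0` in `ZMod p` for `0 < j < p`. -/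
theorem cast_ne {j : ℕ} (h0 : 0 < j) (hj : j < p) : (j : ZMod p) ≠ 0 := by
  intro h
  rw [ZMod.natCast_eq_zero_iff] at h
  exact absurd (Nat.le_of_dvd h0 h) (not_le.2 hj)

/-- PROOF: otherwise take a subset with `m + 1` elements, `LX_of_cl`, `card_le_of_indep`. -/
theorem card_cl_le (hp : m + 2 < p) {S : Finset (Vx p m)} (hS : Cl nb S) : S.card ≤ m := by
  classical
  by_contra hc
  obtain ⟨T, hT, hTc⟩ := Finset.exists_subset_card_eq (n := m + 1) (s := S) (by omega)
  have h1 : ((T.card : ZMod p) + 1) ≠ 0 := by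
    have h2 := cast_ne (p := p) (j := m + 2) (by omega) hp
    rw [hTc]
    push_cast at h2 ⊢
    intro h3
    exact h2 (by linear_combination h3)
  have h3 := card_le_of_indep _ T (LX_of_cl (hS.mono hT) h1)
  omega

/-- independent sets of the graph are cliques of `nb` -/
theorem card_ind_le (hp : m + 2 < p) {S : Finset (Vx p m)} (hS : Ind (Gx p m) S) : S.card ≤ m := by
  apply card_cl_le hp
  intro a ha b hb hab
  by_contra hn
  exact hS a ha b hb ⟨hab, hn⟩

omit [Fact p.Prime] in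
theorem adj_Gx {v w : Vx p m} (h : (Gx p m).Adj v w) : v ≠ w ∧ ¬ nb v w := h

end Pool.Agent.W_79d227_ls
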