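import Mathlib

/-!
Double counting of sets built element by element (used in proofs row 584, (6) and (9)).
-/

set_option autoImplicit false

namespace Pool.Agent.W_79d227_ls

open Finset

variable {V : Type} [Fintype V] [DecidableEq V]

open Classical in
theorem dc_sigma_right (P : Finset V → Prop) (k : ℕ) :
    ((univ.filter fun Z : Finset V => Z.card = k + 1 ∧ P Z).sigma (fun Z => Z)).card =
      (k + 1) * (univ.filter fun Z : Finset V => Z.card = k + 1 ∧ P Z).card := by
  rw [card_sigma, sum_congr rfl (fun Z hZ => (mem_filter.1 hZ).2.1), sum_const, smul_eq_mul,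
    mul_comm]

open Classical in
/-- The number of pairs is at most the number of pairs of a set of the next size and an element. -/
theorem dc_step_le (P : Finset V → Prop) (k : ℕ) :
    (∑ Y ∈ univ.filter (fun Y : Finset V => Y.card = k ∧ P Y),
      (univ.filter fun v => v ∉ Y ∧ P (insert v Y)).card) ≤
      (k + 1) * (univ.filter fun Z : Finset V => Z.card = k + 1 ∧ P Z).card := by
  rw [← dc_sigma_right, ← card_sigma]
  refine card_le_card_of_injOn (fun p => ⟨insert p.2 p.1, p.2⟩) ?_ ?_
  · rintro ⟨Y, v⟩ h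
    simp only [coe_sigma, Set.mem_sigma_iff, mem_coe, mem_filter, mem_univ, true_and] at h ⊢
    exact ⟨⟨by rw [card_insert_of_notMem h.2.1, h.1.1], h.2.2⟩, mem_insert_self _ _⟩
  · rintro ⟨Y, v⟩ h ⟨Z, w⟩ h' he
    simp only [coe_sigma, Set.mem_sigma_iff, mem_coe, mem_filter, mem_univ, true_and] at h h'
    simp only [Sigma.mk.injEq, heq_eq_eq] at he ⊢
    obtain ⟨e1, e2⟩ := he
    subst e2
    refine ⟨?_, rfl⟩
    rw [← erase_insert h.2.1, e1, erase_insert h'.2.1]

open Classical in
/-- For hereditary properties the two numbers agree. -/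
theorem dc_step_eq (P : Finset V → Prop) (hP : ∀ v Y, P (insert v Y) → P Y) (k : ℕ) :
    (∑ Y ∈ univ.filter (fun Y : Finset V => Y.card = k ∧ P Y),
      (univ.filter fun v => v ∉ Y ∧ P (insert v Y)).card) =
      (k + 1) * (univ.filter fun Z : Finset V => Z.card = k + 1 ∧ P Z).card := by
  refine le_antisymm (dc_step_le P k) ?_
  rw [← dc_sigma_right, ← card_sigma]
  refine card_le_card_of_injOn (fun p => ⟨p.1.erase p.2, p.2⟩) ?_ ?_
  · rintro ⟨Z, v⟩ h
    simp only [coe_sigma, Set.mem_sigma_iff, mem_coe, mem_filter, mem_univ, true_and] at h ⊢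
    have hi : insert v (Z.erase v) = Z := insert_erase h.2
    refine ⟨⟨?_, ?_⟩, notMem_erase _ _, ?_⟩
    · rw [card_erase_of_mem h.2, h.1.1]; rfl
    · exact hP v _ (by rw [hi]; exact h.1.2)
    · rw [hi]; exact h.1.2
  · rintro ⟨Y, v⟩ h ⟨Z, w⟩ h' he
    simp only [coe_sigma, Set.mem_sigma_iff, mem_coe, mem_filter, mem_univ, true_and] at h h'
    simp only [Sigma.mk.injEq, heq_eq_eq] at he ⊢
    obtain ⟨e1, e2⟩ := he
    subst e2
    refine ⟨?_, rfl⟩
    rw [← insert_erase h.2, e1, insert_erase h'.2]

open Classical in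
theorem dc_zero (P : Finset V → Prop) (h0 : P ∅) :
    (univ.filter fun Y : Finset V => Y.card = 0 ∧ P Y).card = 1 := by
  rw [card_eq_one]
  refine ⟨∅, ?_⟩
  ext Y
  simp only [mem_filter, mem_univ, true_and, mem_singleton, card_eq_zero]
  exact ⟨fun h => h.1, fun h => ⟨h, h ▸ h0⟩⟩

open Classical in
/-- PROOF: induction on `r`. The pairs `(Y, v)` with `|Y| = r`, `P Y`, `v ∉ Y`, `P (insert v Y)` are at
least `g r` times the number of `Y`; every `Z = insert v Y` (`|Z| = r + 1`, `P Z`) arises from at most
`r + 1` pairs (`v ∈ Z`, `Y = Z.erase v`). -/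
theorem dc_ge (P : Finset V → Prop) (g : ℕ → ℝ) (r : ℕ) (hg : ∀ a, a < r → 0 ≤ g a) (h0 : P ∅)
    (h : ∀ Y, P Y → Y.card < r →
      g Y.card ≤ ((univ.filter fun v => v ∉ Y ∧ P (insert v Y)).card : ℝ)) :
    ∏ a ∈ range r, g a ≤
      (r.factorial : ℝ) * ((univ.filter fun Y : Finset V => Y.card = r ∧ P Y).card : ℝ) := by
  have key : ∀ k, k ≤ r → ∏ a ∈ range k, g a ≤
      (k.factorial : ℝ) * ((univ.filter fun Y : Finset V => Y.card = k ∧ P Y).card : ℝ) := by
    intro k
    induction k with
    | zero =>
      intro _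
      rw [dc_zero P h0]
      simp
    | succ k ih =>
      intro hk
      have hk' : k < r := hk
      have h1 := ih hk'.le
      have h2 : ((univ.filter fun Y : Finset V => Y.card = k ∧ P Y).card : ℝ) * g k ≤
          ((k : ℝ) + 1) * ((univ.filter fun Z : Finset V => Z.card = k + 1 ∧ P Z).card : ℝ) := by
        have h3 : ((∑ Y ∈ univ.filter (fun Y : Finset V => Y.card = k ∧ P Y),
            (univ.filter fun v => v ∉ Y ∧ P (insert v Y)).card : ℕ) : ℝ) ≤
            ((k : ℝ) + 1) * ((univ.filter fun Z : Finset V => Z.card = k + 1 ∧ P Z).card : ℝ) := by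
          exact_mod_cast dc_step_le P k
        refine le_trans ?_ h3
        rw [Nat.cast_sum, ← nsmul_eq_mul]
        refine card_nsmul_le_sum _ _ _ (fun Y hY => ?_)
        have hY' := (mem_filter.1 hY).2
        have := h Y hY'.2 (by omega)
        rwa [hY'.1] at this
      rw [prod_range_succ, Nat.factorial_succ]
      calc (∏ a ∈ range k, g a) * g k
          ≤ ((k.factorial : ℝ) *
            ((univ.filter fun Y : Finset V => Y.card = k ∧ P Y).card : ℝ)) * g k :=
            mul_le_mul_of_nonneg_right h1 (hg k hk')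
        _ = (k.factorial : ℝ) *
            (((univ.filter fun Y : Finset V => Y.card = k ∧ P Y).card : ℝ) * g k) := by ring
        _ ≤ (k.factorial : ℝ) * (((k : ℝ) + 1) *
            ((univ.filter fun Z : Finset V => Z.card = k + 1 ∧ P Z).card : ℝ)) :=
            mul_le_mul_of_nonneg_left h2 (by positivity)
        _ = _ := by push_cast; ring
  exact key r le_rfl

open Classical in
/-- The same with equality, for hereditary `P` (every `Z` arises from exactly `r + 1` pairs). -/
theorem dc_eq (P : Finset V → Prop) (g : ℕ → ℝ) (r : ℕ)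
    (hP : ∀ v Y, P (insert v Y) → P Y) (h0 : P ∅)
    (h : ∀ Y, P Y → Y.card < r →
      g Y.card = ((univ.filter fun v => v ∉ Y ∧ P (insert v Y)).card : ℝ)) :
    ∏ a ∈ range r, g a =
      (r.factorial : ℝ) * ((univ.filter fun Y : Finset V => Y.card = r ∧ P Y).card : ℝ) := by
  have key : ∀ k, k ≤ r → ∏ a ∈ range k, g a =
      (k.factorial : ℝ) * ((univ.filter fun Y : Finset V => Y.card = k ∧ P Y).card : ℝ) := by
    intro k
    induction k with
    | zero =>
      intro _
      rw [dc_zero P h0]
      simp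
    | succ k ih =>
      intro hk
      have hk' : k < r := hk
      have h2 : ((univ.filter fun Y : Finset V => Y.card = k ∧ P Y).card : ℝ) * g k =
          ((k : ℝ) + 1) * ((univ.filter fun Z : Finset V => Z.card = k + 1 ∧ P Z).card : ℝ) := by
        have h3 : ((∑ Y ∈ univ.filter (fun Y : Finset V => Y.card = k ∧ P Y),
            (univ.filter fun v => v ∉ Y ∧ P (insert v Y)).card : ℕ) : ℝ) =
            ((k : ℝ) + 1) * ((univ.filter fun Z : Finset V => Z.card = k + 1 ∧ P Z).card : ℝ) := by
          exact_mod_cast dc_step_eq P hP k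
        rw [← h3, Nat.cast_sum, ← nsmul_eq_mul, ← sum_const]
        refine sum_congr rfl (fun Y hY => ?_)
        have hY' := (mem_filter.1 hY).2
        have := h Y hY'.2 (by omega)
        rwa [hY'.1] at this
      rw [prod_range_succ, ih hk'.le, mul_assoc, h2, Nat.factorial_succ]
      push_cast
      ring
  exact key r le_rfl

end Pool.Agent.W_79d227_ls
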