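import Pool.Agent.W_79d227_ls.Form
import Pool.Agent.W_79d227_ls.Dc

/-!
The number of cliques containing a given one and the row sums (proofs row 584, (6)).
-/

set_option autoImplicit false

namespace Pool.Agent.W_79d227_ls

open Finset

variable {V : Type} [Fintype V] [DecidableEq V] {nb : V → V → Prop} {t : ℕ} {n : ℕ → ℝ}

private theorem Count_mono {V : Type} {nb : V → V → Prop} {S S' : Finset V} (h : S ⊆ S')
    (hS : Cl nb S') : Cl nb S := fun a ha b hb hab => hS a (h ha) b (h hb) hab

/-- PROOF: `dc_eq` for `P Y = (Disjoint Y K ∧ Cl nb (K ∪ Y))`; for such `Y` the `v ∉ Y` with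
`P (insert v Y)` are the elements of `cn nb (K ∪ Y)`; bijection `Y ↦ K ∪ Y`, `I ↦ I \ K`. -/
theorem card_NK (hsym : ∀ a b, nb a b → nb b a) (hirr : ∀ v, ¬ nb v v) (hreg : Reg nb t n)
    {K : Finset V} (hK : Cl nb K) {r : ℕ} (hr : K.card + r ≤ 2 * t) :
    (r.factorial : ℝ) * (NK nb (K.card + r) K).card = ∏ a ∈ range r, n (K.card + a) := by
  classical
  have h1 := dc_eq (fun Y => Disjoint Y K ∧ Cl nb (K ∪ Y)) (fun a => n (K.card + a)) r
    (fun v Y h => ⟨(disjoint_insert_left.1 h.1).2,
      Count_mono (union_subset_union_right (subset_insert v Y)) h.2⟩)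
    ⟨disjoint_empty_left K, by rwa [union_empty]⟩
    (by
      intro Y hY hYr
      have h2 : (K ∪ Y).card = K.card + Y.card := card_union_of_disjoint hY.1.symm
      have h3 := hreg (K ∪ Y) hY.2 (by omega)
      rw [h2] at h3
      rw [← h3]
      congr 2
      ext v
      simp only [cn, mem_filter, mem_univ, true_and]
      constructor
      · intro hv
        have hvn : v ∉ K ∪ Y := fun h => hirr v (hv v h)
        rw [mem_union, not_or] at hvn
        refine ⟨hvn.2, disjoint_insert_left.2 ⟨hvn.1, hY.1⟩, ?_⟩
        intro a ha b hb hab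
        rw [union_insert, mem_insert] at ha hb
        rcases ha with ha | ha
        · rcases hb with hb | hb
          · exact absurd (ha.trans hb.symm) hab
          · rw [ha]
            exact hv b hb
        · rcases hb with hb | hb
          · rw [hb]
            exact hsym _ _ (hv a ha)
          · exact hY.2 a ha b hb hab
      · rintro ⟨hvY, hd, hc⟩ w hw
        have hvK : v ∉ K := (disjoint_insert_left.1 hd).1
        have hne : v ≠ w := by
          rintro rfl
          rcases mem_union.1 hw with h | h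
          · exact hvK h
          · exact hvY h
        rw [union_insert] at hc
        exact hc v (mem_insert_self _ _) w (mem_insert_of_mem hw) hne)
  rw [h1]
  congr 1
  rw [Nat.cast_inj]
  refine Finset.card_bij' (fun I _ => I \ K) (fun Y _ => K ∪ Y) ?_ ?_ ?_ ?_
  · intro I hI
    simp only [NK, mem_filter, mem_univ, true_and] at hI ⊢
    obtain ⟨hc, hKI, hcl⟩ := hI
    refine ⟨?_, sdiff_disjoint, ?_⟩
    · rw [card_sdiff_of_subset hKI]
      omega
    · rwa [union_sdiff_of_subset hKI]
  · intro Y hY
    simp only [NK, mem_filter, mem_univ, true_and] at hY ⊢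
    obtain ⟨hc, hd, hcl⟩ := hY
    refine ⟨?_, subset_union_left, hcl⟩
    rw [card_union_of_disjoint hd.symm]
    omega
  · intro I hI
    simp only [NK, mem_filter, mem_univ, true_and] at hI
    exact union_sdiff_of_subset hI.2.1
  · intro Y hY
    simp only [mem_filter, mem_univ, true_and] at hY
    exact union_sdiff_cancel_left hY.2.1.symm

open Classical in
/-- PROOF: `J ↦ I ∪ J` is a bijection from the `J ∈ NK nb t K` with `AK nb K I J` to
`NK nb (t + r) I` (inverse `L ↦ K ∪ (L \ I)`; `inter_of_AK` gives the cardinality), and `card_NK` for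
`I`. -/
theorem row_AK (hsym : ∀ a b, nb a b → nb b a) (hirr : ∀ v, ¬ nb v v) (hreg : Reg nb t n)
    {K I : Finset V} {r : ℕ} (hr : K.card + r = t) (hI : I ∈ NK nb t K) :
    (r.factorial : ℝ) * (((NK nb t K).filter fun J => AK nb K I J).card : ℝ) =
      ∏ a ∈ range r, n (t + a) := by
  have hI' := hI
  simp only [NK, mem_filter, mem_univ, true_and] at hI'
  obtain ⟨hIc, hKI, hIcl⟩ := hI'
  have h1 := card_NK hsym hirr hreg hIcl (r := r) (by omega)
  rw [hIc] at h1
  rw [← h1]
  congr 1
  rw [Nat.cast_inj]
  refine Finset.card_bij' (fun J _ => I ∪ J) (fun L _ => K ∪ (L \ I)) ?_ ?_ ?_ ?_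
  · intro J hJ
    simp only [NK, mem_filter, mem_univ, true_and] at hJ ⊢
    obtain ⟨⟨hJc, hKJ, hJcl⟩, hA⟩ := hJ
    have hint := inter_of_AK hirr hKI hKJ hA
    refine ⟨?_, subset_union_left, ?_⟩
    · have h2 := card_union_add_card_inter I J
      rw [hint] at h2
      omega
    · rw [cl_union_iff hsym hIcl hJcl, hint]
      exact hA
  · intro L hL
    simp only [NK, mem_filter, mem_univ, true_and] at hL ⊢
    obtain ⟨hLc, hIL, hLcl⟩ := hL
    have hd : Disjoint K (L \ I) := by
      rw [disjoint_left]
      intro x hx hx'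
      exact (mem_sdiff.1 hx').2 (hKI hx)
    refine ⟨⟨?_, subset_union_left, ?_⟩, ?_⟩
    · rw [card_union_of_disjoint hd, card_sdiff_of_subset hIL]
      omega
    · exact Count_mono (union_subset (hKI.trans hIL) sdiff_subset) hLcl
    · intro a ha b hb
      rw [mem_sdiff] at ha hb
      have hb' : b ∈ L \ I := by
        rcases mem_union.1 hb.1 with h | h
        · exact absurd h hb.2
        · exact h
      rw [mem_sdiff] at hb'
      exact hLcl a (hIL ha.1) b hb'.1 (fun h => hb'.2 (h ▸ ha.1))
  · intro J hJ
    simp only [NK, mem_filter, mem_univ, true_and] at hJ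
    obtain ⟨⟨hJc, hKJ, hJcl⟩, hA⟩ := hJ
    have hint := inter_of_AK hirr hKI hKJ hA
    change K ∪ ((I ∪ J) \ I) = J
    ext x
    rw [mem_union, mem_sdiff, mem_union]
    constructor
    · rintro (h | ⟨h | h, h'⟩)
      · exact hKJ h
      · exact absurd h h'
      · exact h
    · intro h
      by_cases hxI : x ∈ I
      · left
        rw [← hint]
        exact mem_inter.2 ⟨hxI, h⟩
      · exact Or.inr ⟨Or.inr h, hxI⟩
  · intro L hL
    simp only [NK, mem_filter, mem_univ, true_and] at hL
    obtain ⟨hLc, hIL, hLcl⟩ := hL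
    change I ∪ (K ∪ (L \ I)) = L
    ext x
    rw [mem_union, mem_union, mem_sdiff]
    constructor
    · rintro (h | h | h)
      · exact hIL h
      · exact hIL (hKI h)
      · exact h.1
    · intro h
      by_cases hxI : x ∈ I
      · exact Or.inl hxI
      · exact Or.inr (Or.inr ⟨h, hxI⟩)

end Pool.Agent.W_79d227_ls
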