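import Pool.Agent.W_79d227_kp.Defs

/-!
# MP_79d227_co: the Lasserre hierarchy and graphs with small independence number, definitions

Proofs row 584. `nb` is a symmetric irreflexive relation (non-adjacency of distinct vertices).
-/

set_option autoImplicit false

namespace Pool.Agent.W_79d227_ls

open Finset Pool.Agent.W_79d227_kp

/-- Feasible points of the Lasserre (sum of squares) relaxation of level `t` of the independence
number: `y ∅ = 1`, `y I = 0` if `I` contains an edge, and the matrix `y (I ∪ J)`, `|I|, |J| ≤ t`, is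
positive semidefinite. -/
structure Lasserre {V : Type} [Fintype V] [DecidableEq V] (G : SimpleGraph V) (t : ℕ)
    (y : Finset V → ℝ) : Prop where
  empty : y ∅ = 1
  indep : ∀ I, ∀ a ∈ I, ∀ b ∈ I, G.Adj a b → y I = 0
  psd : PSD (fun I J : {S : Finset V // S.card ≤ t} => y (I.1 ∪ J.1))

/-- the Lasserre bound of level `t` -/
noncomputable def lasserre {V : Type} [Fintype V] [DecidableEq V] (G : SimpleGraph V) (t : ℕ) : ℝ :=
  sSup {s | ∃ y : Finset V → ℝ, Lasserre G t y ∧ ∑ v, y {v} = s}

section abstr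

variable {V : Type} [Fintype V] [DecidableEq V]

/-- cliques of the relation `nb` -/
def Cl (nb : V → V → Prop) (S : Finset V) : Prop := ∀ a ∈ S, ∀ b ∈ S, a ≠ b → nb a b

open Classical in
/-- the common neighbours of all elements of `S` -/
noncomputable def cn (nb : V → V → Prop) (S : Finset V) : Finset V :=
  univ.filter fun v => ∀ s ∈ S, nb v s

open Classical in
/-- the `t`-cliques which contain `K` -/
noncomputable def NK (nb : V → V → Prop) (t : ℕ) (K : Finset V) : Finset (Finset V) :=
  univ.filter fun I => I.card = t ∧ K ⊆ I ∧ Cl nb I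

/-- all elements of `I \ K` are related to all elements of `J \ K` -/
def AK (nb : V → V → Prop) (K I J : Finset V) : Prop := ∀ a ∈ I \ K, ∀ b ∈ J \ K, nb a b

/-- the constants `c_j`: `c_0 = 1`, `c_(j+1) = c_j (T - j) / n_j` -/
noncomputable def cc (n : ℕ → ℝ) (T : ℝ) (j : ℕ) : ℝ := ∏ i ∈ range j, (T - i) / n i

open Classical in
/-- the moments -/
noncomputable def mom (nb : V → V → Prop) (n : ℕ → ℝ) (T : ℝ) (S : Finset V) : ℝ :=
  if Cl nb S then cc n T S.card else 0

/-- regularity: a clique with `q < 2 t` elements has exactly `n q` common neighbours -/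
def Reg (nb : V → V → Prop) (t : ℕ) (n : ℕ → ℝ) : Prop :=
  ∀ S : Finset V, Cl nb S → S.card < 2 * t → ((cn nb S).card : ℝ) = n S.card

open Classical in
/-- The hypothesis of the spectral lemma for all `K`: for `|K| + r = t`, `1 ≤ r`, and `I` a `t`-clique
containing `K` there are at most `δ |N_K|` elements `J` of `N_K` with fewer than
`(1 - δ) d ^ 2 / |N_K|` common neighbours for `AK K`, where `r! d = n_t n_(t+1) .. n_(t+r-1)`. -/
def Gen (nb : V → V → Prop) (t : ℕ) (n : ℕ → ℝ) (δ : ℝ) : Prop :=
  ∀ (r : ℕ) (K : Finset V), 1 ≤ r → K.card + r = t → Cl nb K → ∀ I ∈ NK nb t K,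
    (((NK nb t K).filter fun J =>
      (((NK nb t K).filter fun H => AK nb K I H ∧ AK nb K H J).card : ℝ) <
        (1 - δ) * (((∏ a ∈ range r, n (t + a)) / (r.factorial : ℝ)) ^ 2 / (NK nb t K).card)).card : ℝ)
      ≤ δ * (NK nb t K).card

/-- the linear relations (*) -/
def Rel (y : Finset V → ℝ) (t : ℕ) (T : ℝ) : Prop :=
  ∀ S : Finset V, S.card < 2 * t →
    ∑ v ∈ univ.filter (fun v => v ∉ S), y (insert v S) = (T - S.card) * y S

/-- the binomial coefficient of `T - j` over `r` -/
noncomputable def bb (T : ℝ) (j r : ℕ) : ℝ := ∏ i ∈ range r, (T - j - i) / ((i : ℝ) + 1)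

end abstr

section alg

variable {p m : ℕ}

/-- the standard bilinear form -/
def ip (x y : Fin m → ZMod p) : ZMod p := ∑ i, x i * y i

/-- the vertices: pairs `(x, x')` with `⟨x, x'⟩ = 2` -/
abbrev Vx (p m : ℕ) : Type := {v : (Fin m → ZMod p) × (Fin m → ZMod p) // ip v.1 v.2 = 2}

/-- the relation `⟨x, y'⟩ = ⟨y, x'⟩ = 1` -/
def nb (v w : Vx p m) : Prop := ip v.1.1 w.1.2 = 1 ∧ ip w.1.1 v.1.2 = 1

/-- the graph: distinct vertices are adjacent unless they are related -/
def Gx (p m : ℕ) : SimpleGraph (Vx p m) where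
  Adj v w := v ≠ w ∧ ¬ nb v w
  symm := ⟨fun _ _ h => ⟨h.1.symm, fun h' => h.2 ⟨h'.2, h'.1⟩⟩⟩
  loopless := ⟨fun _ h => h.1 rfl⟩

/-- the first components of the elements of `S` are linearly independent -/
def LX [Fact p.Prime] (S : Finset (Vx p m)) : Prop :=
  LinearIndepOn (ZMod p) (fun v : Vx p m => v.1.1) (S : Set (Vx p m))

/-- the second components of the elements of `S` are linearly independent -/
def LY [Fact p.Prime] (S : Finset (Vx p m)) : Prop :=
  LinearIndepOn (ZMod p) (fun v : Vx p m => v.1.2) (S : Set (Vx p m))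

/-- the span of the first components -/
def spX [Fact p.Prime] (S : Finset (Vx p m)) : Submodule (ZMod p) (Fin m → ZMod p) :=
  Submodule.span (ZMod p) ((fun v : Vx p m => v.1.1) '' (S : Set (Vx p m)))

/-- the span of the second components -/
def spY [Fact p.Prime] (S : Finset (Vx p m)) : Submodule (ZMod p) (Fin m → ZMod p) :=
  Submodule.span (ZMod p) ((fun v : Vx p m => v.1.2) '' (S : Set (Vx p m)))

/-- the regularity numbers `n_q = (p ^ (m - q) - 1) p ^ (m - q - 1)` -/
noncomputable def nq (p m q : ℕ) : ℝ := ((p : ℝ) ^ (m - q) - 1) * (p : ℝ) ^ (m - q - 1)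

end alg

end Pool.Agent.W_79d227_ls
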