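import Pool.Agent.W_79d227_ls.Bad
import Pool.Agent.W_79d227_ls.Count

/-!
Common neighbours of `I` and `J` in general position (proofs row 584, (9)(c)).
-/

set_option autoImplicit false

namespace Pool.Agent.W_79d227_ls

open Finset

variable {p m t : ℕ} [Fact p.Prime]

theorem GenB_symm {v w : Vx p m} (h : nb v w) : nb w v := ⟨h.2, h.1⟩

theorem GenB_mem_cn {S : Finset (Vx p m)} {v : Vx p m} :
    v ∈ cn nb S ↔ ∀ s ∈ S, nb v s := by
  simp [cn]

/-- the property of the added sets -/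
def GenB_P (I J Z : Finset (Vx p m)) : Prop :=
  Disjoint Z (I ∪ J) ∧ (∀ z ∈ Z, z ∈ cn nb (I ∪ J)) ∧ Cl nb Z ∧ LX (I ∪ J ∪ Z) ∧ LY (I ∪ J ∪ Z)

theorem GenB_insert {I J Y : Finset (Vx p m)} (h : GenB_P I J Y) {v : Vx p m}
    (hv : v ∈ cn nb (I ∪ J ∪ Y)) (h1 : v.1.1 ∉ spX (I ∪ J ∪ Y)) (h2 : v.1.2 ∉ spY (I ∪ J ∪ Y)) :
    v ∉ Y ∧ GenB_P I J (insert v Y) := by
  obtain ⟨hd, hc, hcl, hx, hy⟩ := h
  obtain ⟨hvS, hx'⟩ := LX_insert hx h1
  obtain ⟨-, hy'⟩ := LY_insert hy h2
  rw [Finset.mem_union, not_or] at hvS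
  have hins : insert v (I ∪ J ∪ Y) = I ∪ J ∪ insert v Y := by
    ext w
    simp only [Finset.mem_insert, Finset.mem_union]
    tauto
  rw [GenB_mem_cn] at hv
  refine ⟨hvS.2, ?_, ?_, ?_, ?_, ?_⟩
  · rw [Finset.disjoint_insert_left]
    exact ⟨hvS.1, hd⟩
  · intro z hz
    rcases Finset.mem_insert.1 hz with rfl | hz
    · rw [GenB_mem_cn]
      exact fun s hs => hv s (Finset.mem_union_left _ hs)
    · exact hc z hz
  · intro a ha b hb hab
    rcases Finset.mem_insert.1 ha with ha' | ha'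
    · rcases Finset.mem_insert.1 hb with hb' | hb'
      · exact absurd (ha'.trans hb'.symm) hab
      · rw [ha']
        exact hv b (Finset.mem_union_right _ hb')
    · rcases Finset.mem_insert.1 hb with hb' | hb'
      · rw [hb']
        exact GenB_symm (hv a (Finset.mem_union_right _ ha'))
      · exact hcl a ha' b hb' hab
  · rw [← hins]
    exact hx'
  · rw [← hins]
    exact hy'

open Classical in
/-- PROOF: `dc_ge` for `P Z = (Disjoint Z (I ∪ J) ∧ (∀ z ∈ Z, z ∈ cn nb (I ∪ J)) ∧ Cl nb Z ∧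
LX (I ∪ J ∪ Z) ∧ LY (I ∪ J ∪ Z))`, `g a = p ^ (2 (m - (K.card + 2 r + a)) - 1) - 3 p ^ m`. Continuations:
`good_self` for `S = I ∪ J ∪ Z`, `|S| ≤ |I ∪ J| + a ≤ K.card + 2 r + a` (the bound decreases with `|S|`). The map
`Z ↦ K ∪ Z` is injective on these `Z` and its values are in `NK nb t K` (`K ⊆ I ∩ J`, so `K ∪ Z` is a
clique), with `AK nb K I (K ∪ Z)`, `AK nb K (K ∪ Z) J` (`(K ∪ Z) \ K = Z`). -/
theorem common_ge (ht : 3 * t ≤ m) {K I J : Finset (Vx p m)} {r : ℕ}
    (hr : K.card + r = t) (hI : I ∈ NK nb t K) (hJ : J ∈ NK nb t K)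
    (hX : LX (I ∪ J)) (hY : LY (I ∪ J))
    (hg : ∀ a, a < r → 3 * (p : ℝ) ^ m ≤ (p : ℝ) ^ (2 * (m - (K.card + 2 * r + a)) - 1)) :
    ∏ a ∈ range r, ((p : ℝ) ^ (2 * (m - (K.card + 2 * r + a)) - 1) - 3 * (p : ℝ) ^ m) ≤
      (r.factorial : ℝ) *
        (((NK nb t K).filter fun H => AK nb K I H ∧ AK nb K H J).card : ℝ) := by
  have hp1 : (1 : ℝ) ≤ p := by exact_mod_cast (Fact.out : p.Prime).one_le
  have hI' : I.card = t ∧ K ⊆ I ∧ Cl nb I := by simpa [NK] using hI
  have hJ' : J.card = t ∧ K ⊆ J ∧ Cl nb J := by simpa [NK] using hJ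
  have hIJ : (I ∪ J).card ≤ K.card + 2 * r := by
    have h1 := Finset.card_union_add_card_inter I J
    have h2 : K.card ≤ (I ∩ J).card :=
      Finset.card_le_card (Finset.subset_inter hI'.2.1 hJ'.2.1)
    omega
  have h0 : GenB_P I J ∅ := by
    refine ⟨Finset.disjoint_empty_left _, by simp, ?_, ?_, ?_⟩
    · intro a ha
      exact absurd ha (Finset.notMem_empty a)
    · rw [Finset.union_empty]
      exact hX
    · rw [Finset.union_empty]
      exact hY
  have key := dc_ge (GenB_P I J)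
    (fun a => (p : ℝ) ^ (2 * (m - (K.card + 2 * r + a)) - 1) - 3 * (p : ℝ) ^ m) r
    (fun a ha => sub_nonneg.2 (hg a ha)) h0 (by
      intro Y hY1 hYr
      have hS : (I ∪ J ∪ Y).card ≤ K.card + 2 * r + Y.card := by
        have h1 := Finset.card_union_le (I ∪ J) Y
        omega
      have hSm : (I ∪ J ∪ Y).card < m := by omega
      have h2 := good_self hY1.2.2.2.1 hY1.2.2.2.2 hSm
      have h3 : (p : ℝ) ^ (2 * (m - (K.card + 2 * r + Y.card)) - 1) ≤
          (p : ℝ) ^ (2 * (m - (I ∪ J ∪ Y).card) - 1) :=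
        pow_le_pow_right₀ hp1 (by omega)
      have h4 : ((((cn nb (I ∪ J ∪ Y)).filter fun v =>
          v.1.1 ∉ spX (I ∪ J ∪ Y) ∧ v.1.2 ∉ spY (I ∪ J ∪ Y)).card : ℕ) : ℝ) ≤
          (((univ.filter fun v => v ∉ Y ∧ GenB_P I J (insert v Y)).card : ℕ) : ℝ) := by
        have h5 : ((cn nb (I ∪ J ∪ Y)).filter fun v =>
            v.1.1 ∉ spX (I ∪ J ∪ Y) ∧ v.1.2 ∉ spY (I ∪ J ∪ Y)) ⊆
            (univ.filter fun v => v ∉ Y ∧ GenB_P I J (insert v Y)) := by
          intro v hv
          rw [Finset.mem_filter] at hv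
          rw [Finset.mem_filter]
          exact ⟨Finset.mem_univ _, GenB_insert hY1 hv.1 hv.2.1 hv.2.2⟩
        exact_mod_cast Finset.card_le_card h5
      show (p : ℝ) ^ (2 * (m - (K.card + 2 * r + Y.card)) - 1) - 3 * (p : ℝ) ^ m ≤ _
      linarith)
  refine key.trans (mul_le_mul_of_nonneg_left ?_ (by positivity))
  have hinj : (univ.filter fun Z : Finset (Vx p m) => Z.card = r ∧ GenB_P I J Z).card ≤
      ((NK nb t K).filter fun H => AK nb K I H ∧ AK nb K H J).card := by
    refine Finset.card_le_card_of_injOn (fun Z => K ∪ Z) ?_ ?_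
    · intro Z hZ
      rw [Finset.mem_coe, Finset.mem_filter] at hZ
      obtain ⟨-, hZr, hd, hc, hcl, -, -⟩ := hZ
      have hKZ : Disjoint K Z := by
        rw [Finset.disjoint_left]
        intro a haK haZ
        exact Finset.disjoint_left.1 hd haZ (Finset.mem_union_left _ (hI'.2.1 haK))
      have hcZ : ∀ z ∈ Z, ∀ s ∈ I ∪ J, nb z s := fun z hz => GenB_mem_cn.1 (hc z hz)
      rw [Finset.mem_coe, Finset.mem_filter]
      refine ⟨?_, ?_, ?_⟩
      · simp only [NK, Finset.mem_filter, Finset.mem_univ, true_and]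
        refine ⟨?_, Finset.subset_union_left, ?_⟩
        · rw [Finset.card_union_of_disjoint hKZ, hZr, hr]
        · intro a ha b hb hab
          rcases Finset.mem_union.1 ha with ha | ha
          · rcases Finset.mem_union.1 hb with hb | hb
            · exact hI'.2.2 a (hI'.2.1 ha) b (hI'.2.1 hb) hab
            · exact GenB_symm (hcZ b hb a (Finset.mem_union_left _ (hI'.2.1 ha)))
          · rcases Finset.mem_union.1 hb with hb | hb
            · exact hcZ a ha b (Finset.mem_union_left _ (hI'.2.1 hb))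
            · exact hcl a ha b hb hab
      · intro a ha b hb
        rw [Finset.mem_sdiff, Finset.mem_union] at hb
        have hbZ : b ∈ Z := hb.1.resolve_left hb.2
        exact GenB_symm (hcZ b hbZ a (Finset.mem_union_left _ (Finset.mem_sdiff.1 ha).1))
      · intro a ha b hb
        rw [Finset.mem_sdiff, Finset.mem_union] at ha
        have haZ : a ∈ Z := ha.1.resolve_left ha.2
        exact hcZ a haZ b (Finset.mem_union_right _ (Finset.mem_sdiff.1 hb).1)
    · intro Z hZ Z' hZ' he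
      rw [Finset.mem_coe, Finset.mem_filter] at hZ hZ'
      have hKZ : ∀ W : Finset (Vx p m), Disjoint W (I ∪ J) → (K ∪ W) \ K = W := by
        intro W hW
        ext a
        rw [Finset.mem_sdiff, Finset.mem_union]
        constructor
        · rintro ⟨h1, h2⟩
          exact h1.resolve_left h2
        · intro h1
          refine ⟨Or.inr h1, fun h2 => ?_⟩
          exact Finset.disjoint_left.1 hW h1 (Finset.mem_union_left _ (hI'.2.1 h2))
      have he' : K ∪ Z = K ∪ Z' := he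
      rw [← hKZ Z hZ.2.2.1, he', hKZ Z' hZ'.2.2.1]
  exact_mod_cast hinj

end Pool.Agent.W_79d227_ls
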