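import Pool.Agent.W_79d227_ls.Defs

/-!
Numerical inequalities (proofs row 584, (9)(d)), `m = 6 t`.
-/

set_option autoImplicit false

namespace Pool.Agent.W_79d227_ls

open Finset

variable {p t : ℕ}

private theorem Num_nq {m q : ℕ} (hq : q < m) :
    nq p m q = (p : ℝ) ^ (2 * (m - q) - 1) - (p : ℝ) ^ (m - q - 1) := by
  unfold nq
  rw [sub_mul, one_mul, ← pow_add]
  congr 2
  omega

/-- PROOF: `nq p m q = p ^ (m - q) p ^ (m - q - 1) - p ^ (m - q - 1)` and the exponents add up to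
`2 (m - q) - 1`. -/
theorem nq_le {m q : ℕ} (hq : q < m) : nq p m q ≤ (p : ℝ) ^ (2 * (m - q) - 1) := by
  rw [Num_nq hq]
  have : (0 : ℝ) ≤ (p : ℝ) ^ (m - q - 1) := by positivity
  linarith

/-- PROOF: `p ^ (m - q - 1) ≤ p ^ (2 (m - q) - 1) / p`. -/
theorem nq_ge (hp : 2 ≤ p) {m q : ℕ} (hq : q < m) :
    (1 - 1 / (p : ℝ)) * (p : ℝ) ^ (2 * (m - q) - 1) ≤ nq p m q := by
  rw [Num_nq hq]
  have hp1 : (1 : ℝ) ≤ p := by exact_mod_cast (by omega : 1 ≤ p)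
  have hp0 : (0 : ℝ) < p := by linarith
  have h1 : (p : ℝ) ^ (2 * (m - q) - 1) = p * (p : ℝ) ^ (2 * (m - q) - 2) := by
    rw [← pow_succ']
    congr 1
    omega
  have h2 : (p : ℝ) ^ (m - q - 1) ≤ (p : ℝ) ^ (2 * (m - q) - 2) := pow_le_pow_right₀ hp1 (by omega)
  have h3 : (1 - 1 / (p : ℝ)) * (p : ℝ) ^ (2 * (m - q) - 1) =
      (p : ℝ) ^ (2 * (m - q) - 1) - (p : ℝ) ^ (2 * (m - q) - 2) := by
    rw [h1]
    field_simp
  rw [h3]
  linarith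

/-- PROOF: `nq_ge`, `1 - 1 / p ≥ 1 / 2`, `m + r + 1 ≤ 2 (m - k - a) - 1` for `m = 6 t`, `a < r`, `k + r = t`. -/
theorem num_good (hp : 4 ≤ p) {k r a : ℕ} (ha : a < r) (hr : k + r = t) :
    2 * (p : ℝ) ^ (6 * t + r) ≤ 4 / (p : ℝ) * nq p (6 * t) (k + a) := by
  have hp4 : (4 : ℝ) ≤ p := by exact_mod_cast hp
  have hp0 : (0 : ℝ) < p := by linarith
  have h1 := nq_ge (p := p) (by omega : 2 ≤ p) (m := 6 * t) (q := k + a) (by omega)
  have h2 : (p : ℝ) ^ (2 * (6 * t - (k + a)) - 1) = p * (p : ℝ) ^ (2 * (6 * t - (k + a)) - 2) := by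
    rw [← pow_succ']
    congr 1
    omega
  have h3 : (p : ℝ) ^ (6 * t + r) ≤ (p : ℝ) ^ (2 * (6 * t - (k + a)) - 2) :=
    pow_le_pow_right₀ (by linarith) (by omega)
  have h4 : (1 : ℝ) / p ≤ 1 / 2 := by
    rw [div_le_div_iff₀ hp0 (by norm_num)]
    linarith
  have h5 : 0 ≤ (p : ℝ) ^ (2 * (6 * t - (k + a)) - 2) := by positivity
  have h6 : 1 / 2 * (p * (p : ℝ) ^ (2 * (6 * t - (k + a)) - 2)) ≤ nq p (6 * t) (k + a) := by
    rw [h2] at h1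
    refine le_trans ?_ h1
    exact mul_le_mul_of_nonneg_right (by linarith) (by positivity)
  have h7 : 4 / (p : ℝ) * (1 / 2 * (p * (p : ℝ) ^ (2 * (6 * t - (k + a)) - 2))) =
      2 * (p : ℝ) ^ (2 * (6 * t - (k + a)) - 2) := by
    field_simp
    norm_num
  calc 2 * (p : ℝ) ^ (6 * t + r) ≤ 2 * (p : ℝ) ^ (2 * (6 * t - (k + a)) - 2) := by linarith
    _ = 4 / (p : ℝ) * (1 / 2 * (p * (p : ℝ) ^ (2 * (6 * t - (k + a)) - 2))) := h7.symm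
    _ ≤ _ := mul_le_mul_of_nonneg_left h6 (by positivity)

/-- PROOF: `3 p ^ m ≤ (3 / p) p ^ (2 (m - q) - 1)` for `q = k + 2 r + a ≤ 3 t - 1`, `m = 6 t`; `nq_ge`,
`nq_le`, the exponents satisfy `(k + 2 r + a) + (k + a) = 2 (t + a)`, and
`(1 - 3 / p) (1 - 1 / p) ≥ 1 - 4 / p`. -/
theorem num_common (hp : 4 ≤ p) {k r a : ℕ} (ha : a < r) (hr : k + r = t) :
    (1 - 4 / (p : ℝ)) * nq p (6 * t) (t + a) ^ 2 ≤
      ((p : ℝ) ^ (2 * (6 * t - (k + 2 * r + a)) - 1) - 3 * (p : ℝ) ^ (6 * t)) *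
        nq p (6 * t) (k + a) := by
  have hp4 : (4 : ℝ) ≤ p := by exact_mod_cast hp
  have hp0 : (0 : ℝ) < p := by linarith
  have h1 := nq_ge (p := p) (by omega : 2 ≤ p) (m := 6 * t) (q := k + a) (by omega)
  have h2 := nq_le (p := p) (m := 6 * t) (q := t + a) (by omega)
  have h0 : 0 ≤ nq p (6 * t) (t + a) := by
    refine le_trans ?_ (nq_ge (p := p) (by omega : 2 ≤ p) (m := 6 * t) (q := t + a) (by omega))
    have : (1 : ℝ) / p ≤ 1 := by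
      rw [div_le_one hp0]
      linarith
    exact mul_nonneg (by linarith) (by positivity)
  set E : ℕ := 2 * (6 * t - (k + 2 * r + a)) - 1 with hE
  set E' : ℕ := 2 * (6 * t - (k + a)) - 1 with hE'
  set E'' : ℕ := 2 * (6 * t - (t + a)) - 1 with hE''
  have h3 : (p : ℝ) ^ (6 * t) * p ≤ (p : ℝ) ^ E := by
    rw [← pow_succ]
    exact pow_le_pow_right₀ (by linarith) (by omega)
  have h4 : (1 - 3 / (p : ℝ)) * (p : ℝ) ^ E ≤ (p : ℝ) ^ E - 3 * (p : ℝ) ^ (6 * t) := by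
    have h5 : (p : ℝ) ^ (6 * t) ≤ (p : ℝ) ^ E / p := by
      rw [le_div_iff₀ hp0]
      exact h3
    have h6 : (1 - 3 / (p : ℝ)) * (p : ℝ) ^ E = (p : ℝ) ^ E - 3 * ((p : ℝ) ^ E / p) := by ring
    rw [h6]
    linarith
  have h7 : nq p (6 * t) (t + a) ^ 2 ≤ (p : ℝ) ^ E * (p : ℝ) ^ E' := by
    rw [← pow_add]
    have h8 : E + E' = E'' + E'' := by omega
    rw [h8, pow_add, ← pow_two]
    exact pow_le_pow_left₀ h0 h2 2
  have hpE : 0 ≤ (p : ℝ) ^ E := by positivity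
  have hpE' : 0 ≤ (p : ℝ) ^ E' := by positivity
  have h9 : 3 / (p : ℝ) ≤ 1 := by
    rw [div_le_one hp0]
    linarith
  have h10 : 1 / (p : ℝ) ≤ 1 := by
    rw [div_le_one hp0]
    linarith
  have h11 : 4 / (p : ℝ) ≤ 1 := by
    rw [div_le_one hp0]
    linarith
  calc (1 - 4 / (p : ℝ)) * nq p (6 * t) (t + a) ^ 2
      ≤ (1 - 4 / (p : ℝ)) * ((p : ℝ) ^ E * (p : ℝ) ^ E') := mul_le_mul_of_nonneg_left h7 (by linarith)
    _ ≤ ((1 - 3 / (p : ℝ)) * (1 - 1 / (p : ℝ))) * ((p : ℝ) ^ E * (p : ℝ) ^ E') := by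
        refine mul_le_mul_of_nonneg_right ?_ (by positivity)
        have h12 : (1 - 3 / (p : ℝ)) * (1 - 1 / (p : ℝ)) = 1 - 4 / (p : ℝ) + 3 / (p : ℝ) * (1 / (p : ℝ)) := by ring
        rw [h12]
        have : 0 ≤ 3 / (p : ℝ) * (1 / (p : ℝ)) := by positivity
        linarith
    _ = ((1 - 3 / (p : ℝ)) * (p : ℝ) ^ E) * ((1 - 1 / (p : ℝ)) * (p : ℝ) ^ E') := by ring
    _ ≤ _ := mul_le_mul h4 h1 (mul_nonneg (by linarith) hpE') ((mul_nonneg (by linarith) hpE).trans h4)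

/-- PROOF: `3 ≤ p` and the exponent on the right is at least `6 t + 1`. -/
theorem num_pow (hp : 4 ≤ p) {k r a : ℕ} (ha : a < r) (hr : k + r = t) :
    3 * (p : ℝ) ^ (6 * t) ≤ (p : ℝ) ^ (2 * (6 * t - (k + 2 * r + a)) - 1) := by
  have hp4 : (4 : ℝ) ≤ p := by exact_mod_cast hp
  have h1 : (p : ℝ) * (p : ℝ) ^ (6 * t) ≤ (p : ℝ) ^ (2 * (6 * t - (k + 2 * r + a)) - 1) := by
    rw [← pow_succ']
    exact pow_le_pow_right₀ (by linarith) (by omega)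
  have h2 : 3 * (p : ℝ) ^ (6 * t) ≤ (p : ℝ) * (p : ℝ) ^ (6 * t) :=
    mul_le_mul_of_nonneg_right (by linarith) (by positivity)
  linarith

/-- Bernoulli. -/
theorem bern (hp : 4 ≤ p) {r : ℕ} (hr : r ≤ t) :
    1 - 4 * (t : ℝ) / p ≤ (1 - 4 / (p : ℝ)) ^ r := by
  have hp4 : (4 : ℝ) ≤ p := by exact_mod_cast hp
  have hp0 : (0 : ℝ) < p := by linarith
  have h1 : 4 / (p : ℝ) ≤ 1 := by
    rw [div_le_one hp0]
    exact hp4
  have h2 := one_add_mul_le_pow (a := -(4 / (p : ℝ))) (by linarith) r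
  have h3 : (r : ℝ) ≤ t := by exact_mod_cast hr
  have h4 : (r : ℝ) * (4 / (p : ℝ)) ≤ t * (4 / (p : ℝ)) := mul_le_mul_of_nonneg_right h3 (by positivity)
  have h5 : 4 * (t : ℝ) / p = t * (4 / (p : ℝ)) := by ring
  have h6 : 1 + -(4 / (p : ℝ)) = 1 - 4 / (p : ℝ) := by ring
  rw [h6] at h2
  rw [h5]
  linarith

end Pool.Agent.W_79d227_ls
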