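import Pool.Agent.W_79d227_ls.GenA
import Pool.Agent.W_79d227_ls.GenB
import Pool.Agent.W_79d227_ls.Num

/-!
The hypothesis `Gen` (proofs row 584, (9)).
-/

set_option autoImplicit false

namespace Pool.Agent.W_79d227_ls

open Finset

variable {p t : ℕ} [Fact p.Prime]

/-- PROOF: `m = 6 t`, `δ = 4 t / p`. Write `N = |NK nb t K|`, `r! N = ∏ nq (|K| + a)` (`card_NK`). An exceptional
`J` is not good: if `LX (I ∪ J)`, `LY (I ∪ J)` then by `common_ge`, `num_common`, `bern`
`r! B ≥ (1 - δ) (∏ nq (t + a)) ^ 2 / ∏ nq (|K| + a)`, which is `r! (1 - δ) d ^ 2 / N`. The number of good `J` is at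
least `(1 - δ) N` (`good_J`, `num_good`, `bern`). -/
theorem gen_nb (hp : 6 * t + 4 ≤ p) :
    Gen (nb (p := p) (m := 6 * t)) t (nq p (6 * t)) (4 * (t : ℝ) / p) := by
  classical
  intro r K hr1 hr hK I hI
  have hp4 : 4 ≤ p := by omega
  have hp0 : (0 : ℝ) < p := by
    have : (4 : ℝ) ≤ p := by exact_mod_cast hp4
    linarith
  have h4p : 4 / (p : ℝ) ≤ 1 := by
    rw [div_le_one hp0]
    exact_mod_cast hp4
  have h4p' : 0 ≤ 1 - 4 / (p : ℝ) := by linarith
  have hreg : Reg (nb (p := p) (m := 6 * t)) t (nq p (6 * t)) := reg_nb (by omega) (by omega)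
  have hN := card_NK nb_symm nb_irrefl hreg hK (r := r) (by omega)
  rw [hr] at hN
  set N : ℝ := ((NK nb t K).card : ℝ) with hNdef
  set P1 : ℝ := ∏ a ∈ range r, nq p (6 * t) (K.card + a) with hP1def
  set P2 : ℝ := ∏ a ∈ range r, nq p (6 * t) (t + a) with hP2def
  have hP1 : 0 < P1 := prod_pos fun a ha => nq_pos (by have := mem_range.1 ha; omega)
  have hfac : (0 : ℝ) < (r.factorial : ℝ) := by exact_mod_cast Nat.factorial_pos r
  have hNpos : 0 < N := by
    rcases lt_or_ge 0 N with h | h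
    · exact h
    · exfalso
      have : (r.factorial : ℝ) * N ≤ 0 := mul_nonpos_of_nonneg_of_nonpos hfac.le h
      linarith
  have hb : 1 - 4 * (t : ℝ) / p ≤ (1 - 4 / (p : ℝ)) ^ r := bern (t := t) hp4 (r := r) (by omega)
  have hgood : (1 - 4 * (t : ℝ) / p) * N ≤
      (((NK nb t K).filter fun J => LX (I ∪ J) ∧ LY (I ∪ J)).card : ℝ) := by
    have h1 := good_J (t := t) (m := 6 * t) (by omega) (by omega) hr hI (fun a ha => by
      have hx := num_good (p := p) (t := t) hp4 (k := K.card) ha hr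
      have hy : 0 < nq p (6 * t) (K.card + a) := nq_pos (by omega)
      calc 2 * (p : ℝ) ^ (6 * t + r) ≤ 4 / (p : ℝ) * nq p (6 * t) (K.card + a) := hx
        _ ≤ 1 * nq p (6 * t) (K.card + a) := mul_le_mul_of_nonneg_right h4p hy.le
        _ = nq p (6 * t) (K.card + a) := one_mul _)
    have h2 : (1 - 4 / (p : ℝ)) ^ r * P1 ≤
        ∏ a ∈ range r, (nq p (6 * t) (K.card + a) - 2 * (p : ℝ) ^ (6 * t + r)) := by
      have e : (1 - 4 / (p : ℝ)) ^ r * P1 =
          ∏ a ∈ range r, ((1 - 4 / (p : ℝ)) * nq p (6 * t) (K.card + a)) := by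
        rw [prod_mul_distrib, prod_const, card_range]
      rw [e]
      refine prod_le_prod (fun a ha => ?_) (fun a ha => ?_)
      · have ha' := mem_range.1 ha
        exact mul_nonneg h4p' (nq_pos (by omega)).le
      · have ha' := mem_range.1 ha
        have hx := num_good (p := p) (t := t) hp4 (k := K.card) ha' hr
        linarith
    have h3 : (1 - 4 * (t : ℝ) / p) * P1 ≤ (r.factorial : ℝ) *
        (((NK nb t K).filter fun J => LX (I ∪ J) ∧ LY (I ∪ J)).card : ℝ) :=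
      (mul_le_mul_of_nonneg_right hb hP1.le).trans (h2.trans h1)
    rw [← hN] at h3
    have h4 : (r.factorial : ℝ) * ((1 - 4 * (t : ℝ) / p) * N) ≤ (r.factorial : ℝ) *
        (((NK nb t K).filter fun J => LX (I ∪ J) ∧ LY (I ∪ J)).card : ℝ) := by
      calc (r.factorial : ℝ) * ((1 - 4 * (t : ℝ) / p) * N)
          = (1 - 4 * (t : ℝ) / p) * ((r.factorial : ℝ) * N) := by ring
        _ ≤ _ := h3
    exact le_of_mul_le_mul_left h4 hfac
  have hcommon : ∀ J ∈ NK nb t K, LX (I ∪ J) → LY (I ∪ J) →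
      (1 - 4 * (t : ℝ) / p) * ((P2 / (r.factorial : ℝ)) ^ 2 / N) ≤
        (((NK nb t K).filter fun H => AK nb K I H ∧ AK nb K H J).card : ℝ) := by
    intro J hJ hX hY
    have h1 := common_ge (t := t) (m := 6 * t) (by omega) hr hI hJ hX hY (fun a ha =>
      num_pow (p := p) (t := t) hp4 (k := K.card) ha hr)
    set B : ℝ := (((NK nb t K).filter fun H => AK nb K I H ∧ AK nb K H J).card : ℝ) with hB
    set E : ℝ := ∏ a ∈ range r, ((p : ℝ) ^ (2 * (6 * t - (K.card + 2 * r + a)) - 1) -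
      3 * (p : ℝ) ^ (6 * t)) with hE
    have h2 : (1 - 4 / (p : ℝ)) ^ r * P2 ^ 2 ≤ E * P1 := by
      have e1 : (1 - 4 / (p : ℝ)) ^ r * P2 ^ 2 =
          ∏ a ∈ range r, ((1 - 4 / (p : ℝ)) * nq p (6 * t) (t + a) ^ 2) := by
        rw [prod_mul_distrib, prod_const, card_range, prod_pow]
      rw [e1, hE, hP1def, ← prod_mul_distrib]
      refine prod_le_prod (fun a ha => ?_) (fun a ha => ?_)
      · exact mul_nonneg h4p' (sq_nonneg _)
      · exact num_common (p := p) (t := t) hp4 (k := K.card) (mem_range.1 ha) hr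
    have h3 : (1 - 4 * (t : ℝ) / p) * P2 ^ 2 ≤ E * P1 :=
      (mul_le_mul_of_nonneg_right hb (sq_nonneg _)).trans h2
    have h4 : E * P1 ≤ ((r.factorial : ℝ) * B) * ((r.factorial : ℝ) * N) := by
      rw [← hN]
      exact mul_le_mul_of_nonneg_right h1 (by rw [hN]; exact hP1.le)
    have h5 : (1 - 4 * (t : ℝ) / p) * ((P2 / (r.factorial : ℝ)) ^ 2 / N) =
        ((1 - 4 * (t : ℝ) / p) * P2 ^ 2) / ((r.factorial : ℝ) ^ 2 * N) := by
      field_simp
    rw [h5, div_le_iff₀ (by positivity)]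
    calc (1 - 4 * (t : ℝ) / p) * P2 ^ 2 ≤ ((r.factorial : ℝ) * B) * ((r.factorial : ℝ) * N) :=
          h3.trans h4
      _ = B * ((r.factorial : ℝ) ^ 2 * N) := by ring
  have hsub : ((NK nb t K).filter fun J =>
      (((NK nb t K).filter fun H => AK nb K I H ∧ AK nb K H J).card : ℝ) <
        (1 - 4 * (t : ℝ) / p) * ((P2 / (r.factorial : ℝ)) ^ 2 / N)) ⊆
      (NK nb t K).filter fun J => ¬ (LX (I ∪ J) ∧ LY (I ∪ J)) := by
    intro J hJ
    rw [mem_filter] at hJ ⊢
    refine ⟨hJ.1, fun h => ?_⟩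
    exact absurd (hcommon J hJ.1 h.1 h.2) (not_le.2 hJ.2)
  have hcard := card_le_card hsub
  have hsplit := card_filter_add_card_filter_not (s := NK nb t K)
    (fun J => LX (I ∪ J) ∧ LY (I ∪ J))
  have hsplit' : (((NK nb t K).filter fun J => LX (I ∪ J) ∧ LY (I ∪ J)).card : ℝ) +
      (((NK nb t K).filter fun J => ¬ (LX (I ∪ J) ∧ LY (I ∪ J))).card : ℝ) = N := by
    rw [hNdef]
    exact_mod_cast hsplit
  have hcard' : (((NK nb t K).filter fun J =>
      (((NK nb t K).filter fun H => AK nb K I H ∧ AK nb K H J).card : ℝ) <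
        (1 - 4 * (t : ℝ) / p) * ((P2 / (r.factorial : ℝ)) ^ 2 / N)).card : ℝ) ≤
      (((NK nb t K).filter fun J => ¬ (LX (I ∪ J) ∧ LY (I ∪ J))).card : ℝ) := by
    exact_mod_cast hcard
  have hfin : (((NK nb t K).filter fun J =>
      (((NK nb t K).filter fun H => AK nb K I H ∧ AK nb K H J).card : ℝ) <
        (1 - 4 * (t : ℝ) / p) * ((P2 / (r.factorial : ℝ)) ^ 2 / N)).card : ℝ) ≤
      4 * (t : ℝ) / p * N := by
    linarith
  convert hfin using 2

end Pool.Agent.W_79d227_ls
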