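import Pool.Agent.W_79d227_ls.Defs
import Pool.Agent.W_79d227_kp.Psd

/-!
Powers and the sandwich `α ≤ Las ≤ θ` (proofs row 584, (10)).
-/

set_option autoImplicit false

namespace Pool.Agent.W_79d227_ls

open Finset Pool.Agent.W_79d227_kp

variable {V : Type} [Fintype V] [DecidableEq V] {G : SimpleGraph V} {t : ℕ} {y : Finset V → ℝ}

private theorem Pw_congr {X : Type} [Fintype X] {K L : X → X → ℝ} (hK : PSD K)
    (h : ∀ x y, L x y = K x y) : PSD L := by
  have h1 : L = K := funext fun x => funext fun y => h x y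
  rw [h1]
  exact hK

/-- PROOF: `y S = ∏ i, y0 (S.image (· i))`; `PSD.prod` and `PSD.pull` along
`S ↦ S.image (· i)` (the cardinality does not increase); if two elements of `S` are adjacent in the power, they
differ in some coordinate `i`, and their coordinates are adjacent there. -/
theorem lasserre_pow (h : Lasserre G t y) (n : ℕ) :
    Lasserre (powG G n) t (fun S : Finset (Fin n → V) => ∏ i, y (S.image (fun x => x i))) := by
  refine ⟨?_, ?_, ?_⟩
  · simp only [image_empty, h.empty, prod_const_one]
  · intro I a ha b hb hab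
    obtain ⟨hne, hco⟩ := hab
    obtain ⟨i, hi⟩ : ∃ i, a i ≠ b i := by
      by_contra hno
      push Not at hno
      exact hne (funext hno)
    have h1 : y (I.image (fun x => x i)) = 0 :=
      h.indep _ (a i) (mem_image_of_mem (fun x : Fin n → V => x i) ha) (b i)
        (mem_image_of_mem (fun x : Fin n → V => x i) hb) ((hco i).resolve_left hi)
    exact prod_eq_zero (mem_univ i) h1
  · have h1 : PSD (fun I J : {S : Finset (Fin n → V) // S.card ≤ t} => ∏ i ∈ (univ : Finset (Fin n)),
        y (I.1.image (fun x => x i) ∪ J.1.image (fun x => x i))) := by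
      refine PSD.prod univ fun i _ => ?_
      exact h.psd.pull (fun I : {S : Finset (Fin n → V) // S.card ≤ t} =>
        (⟨I.1.image (fun x => x i), card_image_le.trans I.2⟩ : {S : Finset V // S.card ≤ t}))
    refine Pw_congr h1 fun I J => ?_
    refine prod_congr rfl fun i _ => ?_
    rw [image_union]

/-- PROOF: `Finset.prod_univ_sum` (with `Fintype.piFinset`). -/
theorem sum_pow (n : ℕ) :
    ∑ x : Fin n → V, ∏ i, y ((({x} : Finset (Fin n → V))).image (fun x => x i)) =
      (∑ v, y {v}) ^ n := by
  rw [Fintype.sum_pow]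
  refine sum_congr rfl fun x _ => prod_congr rfl fun i _ => ?_
  rw [image_singleton]

/-- rows `∅` and `{v}` -/
theorem Lasserre.sing_le (h : Lasserre G t y) (ht : 1 ≤ t) (v : V) : y {v} ≤ 1 := by
  have h0 : (∅ : Finset V).card ≤ t := by simp
  have h1 : ({v} : Finset V).card ≤ t := by simpa using ht
  have h2 := h.psd.sq_le ⟨∅, h0⟩ ⟨{v}, h1⟩
  have h3 := h.psd.diag_nonneg ⟨{v}, h1⟩
  simp only [empty_union, union_idempotent, h.empty, one_mul] at h2 h3
  by_contra hc
  have h4 := not_le.1 hc
  nlinarith

theorem bddAbove_lasserre (G : SimpleGraph V) (ht : 1 ≤ t) :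
    BddAbove {s | ∃ y : Finset V → ℝ, Lasserre G t y ∧ ∑ v, y {v} = s} := by
  refine ⟨(Fintype.card V : ℝ), ?_⟩
  rintro s ⟨y, h, rfl⟩
  calc ∑ v, y {v} ≤ ∑ _v : V, (1 : ℝ) := sum_le_sum fun v _ => h.sing_le ht v
    _ = Fintype.card V := by simp

theorem le_lasserre (ht : 1 ≤ t) (h : Lasserre G t y) : ∑ v, y {v} ≤ lasserre G t :=
  le_csSup (bddAbove_lasserre G ht) ⟨y, h, rfl⟩

private theorem Pw_ind (t : ℕ) {T : Finset V} (hT : Ind G T) :
    Lasserre G t (fun I => if I ⊆ T then 1 else 0) := by
  refine ⟨?_, ?_, ?_⟩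
  · simp
  · intro I a ha b hb hab
    rw [if_neg]
    intro hI
    exact hT a (hI ha) b (hI hb) hab
  · refine Pw_congr (PSD.rankOne (X := {S : Finset V // S.card ≤ t})
      (fun I => if I.1 ⊆ T then (1 : ℝ) else 0)) fun I J => ?_
    by_cases h1 : I.1 ⊆ T <;> by_cases h2 : J.1 ⊆ T <;> simp [union_subset_iff, h1, h2]

/-- PROOF: `y I = if I ⊆ T then 1 else 0` is feasible (rank one). -/
theorem card_le_lasserre (ht : 1 ≤ t) {T : Finset V} (hT : Ind G T) :
    (T.card : ℝ) ≤ lasserre G t := by
  have h := le_lasserre ht (Pw_ind (G := G) t hT)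
  have h1 : (∑ v, (if ({v} : Finset V) ⊆ T then (1 : ℝ) else 0)) = T.card := by
    simp [singleton_subset_iff]
  rw [h1] at h
  exact h

/-- PROOF: rows `∅`, `{v}` give `ThetaFeas` for `y {v}`, `y {u, v}`; `csSup_le` and `le_csSup` (the set of
`lovaszTheta` is bounded: `ThetaFeas.le_one` in `W_79d227_kp/Feas.lean`; see `kPoint_le_theta` in
`W_79d227_kp/Final.lean`). -/
theorem thetaFeas_of_lasserre (h : Lasserre G t y) (ht : 1 ≤ t) :
    ThetaFeas G (fun v => y {v}) (fun u v => y {u, v}) := by
  refine ⟨fun u v => ?_, fun v => ?_, fun u v huv => ?_, fun a c => ?_⟩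
  · show y {u, v} = y {v, u}
    rw [pair_comm]
  · show y {v, v} = y {v}
    rw [pair_eq_singleton]
  · exact h.indep {u, v} u (by simp) v (by simp) huv
  · let f : Option V → {S : Finset V // S.card ≤ t} := fun o =>
      ⟨o.toFinset, (by
        cases o with
        | none => simp
        | some v => simpa using ht)⟩
    have h1 := (h.psd.pull f).2 (fun o => o.elim a c)
    have h2 : ∑ x : Option V, ∑ z : Option V, x.elim a c * z.elim a c * y ((f x).1 ∪ (f z).1) =
        a ^ 2 + 2 * a * ∑ v, c v * y {v} + ∑ u, ∑ v, c u * c v * y {u, v} := by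
      simp only [Fintype.sum_option]
      have e1 : (f none).1 = ∅ := rfl
      have e2 : ∀ v, (f (some v)).1 = {v} := fun v => rfl
      simp only [e1, e2, Option.elim_none, Option.elim_some, union_idempotent, empty_union,
        union_empty, h.empty, sum_add_distrib]
      have e3 : ∀ u v : V, ({u} : Finset V) ∪ {v} = {u, v} := fun u v => by
        rw [insert_eq]
      simp only [e3]
      have e4 : ∑ x : V, a * c x * y {x} = a * ∑ v, c v * y {v} := by
        rw [mul_sum]
        exact sum_congr rfl fun x _ => by ring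
      have e5 : ∑ x : V, c x * a * y {x} = a * ∑ v, c v * y {v} := by
        rw [mul_sum]
        exact sum_congr rfl fun x _ => by ring
      rw [e4, e5]
      ring
    rw [← h2]
    exact h1

end Pool.Agent.W_79d227_ls
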