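import Pool.Agent.W_79d227_ls.Assem
import Pool.Agent.W_79d227_ls.GenC
import Pool.Agent.W_79d227_ls.Pw
import Pool.Agent.W_79d227_kp.Final

/-!
The final statements (proofs row 584).
-/

set_option autoImplicit false

namespace Pool.Agent.W_79d227_ls

open Finset Pool.Agent.W_79d227_kp

private theorem Fin_bdd {V : Type} [Fintype V] [DecidableEq V] (G : SimpleGraph V) :
    BddAbove {t | ∃ (y : V → ℝ) (Y : V → V → ℝ), ThetaFeas G y Y ∧ ∑ v, y v = t} := by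
  refine ⟨(Fintype.card V : ℝ), ?_⟩
  rintro t ⟨y, Y, h, rfl⟩
  calc ∑ v, y v ≤ ∑ _v : V, (1 : ℝ) := Finset.sum_le_sum fun v _ => (h.le_one v).2
    _ = (Fintype.card V : ℝ) := by simp

private theorem Fin_nonneg {V : Type} [Fintype V] [DecidableEq V] (G : SimpleGraph V) :
    0 ≤ lovaszTheta G := by
  have h1 := card_le_kPoint G (k := 2) le_rfl (T := ∅) (fun a ha => absurd ha (Finset.notMem_empty a))
  rw [Finset.card_empty, Nat.cast_zero] at h1
  exact h1.trans (kPoint_le_theta G le_rfl)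

theorem lasserre_le_theta {V : Type} [Fintype V] [DecidableEq V] (G : SimpleGraph V) {t : ℕ}
    (ht : 1 ≤ t) : lasserre G t ≤ lovaszTheta G := by
  refine Real.sSup_le ?_ (Fin_nonneg G)
  rintro s ⟨y, h, rfl⟩
  exact le_csSup (Fin_bdd G) ⟨_, _, thetaFeas_of_lasserre h ht, rfl⟩

/-- PROOF: a prime `p ≥ 6 t + 4`, `p ≥ 16 t 4 ^ t T ^ (2 t)`; `ε = 1 / (2 ^ t T ^ t)`, `δ = 4 t / p`;
`lasserre_mom`, `card_ind_le`, `reg_nb`, `nq_pos`, `gen_nb`. -/
theorem exists_large_lasserre {t : ℕ} (ht : 1 ≤ t) {T : ℝ} (hT : (2 * t : ℝ) ≤ T) :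
    ∃ (V : Type) (_ : Fintype V) (_ : DecidableEq V) (G : SimpleGraph V) (y : Finset V → ℝ),
      (∀ S : Finset V, Ind G S → S.card ≤ 6 * t) ∧ Lasserre G t y ∧ ∑ v, y {v} = T := by
  have ht' : (1 : ℝ) ≤ t := by exact_mod_cast ht
  have hT1 : 1 ≤ T := by linarith
  have hT0 : 0 < T := by linarith
  obtain ⟨p, hp, hpr⟩ := Nat.exists_infinite_primes (max (6 * t + 4) ⌈16 * (t : ℝ) * (4 ^ t * T ^ (2 * t))⌉₊)
  have : Fact p.Prime := ⟨hpr⟩
  have hp1 : 6 * t + 4 ≤ p := (le_max_left _ _).trans hp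
  have hp2 : 16 * (t : ℝ) * (4 ^ t * T ^ (2 * t)) ≤ p := by
    have h1 : ⌈16 * (t : ℝ) * (4 ^ t * T ^ (2 * t))⌉₊ ≤ p := (le_max_right _ _).trans hp
    exact (Nat.le_ceil _).trans (by exact_mod_cast h1)
  have hp0 : (0 : ℝ) < p := by
    have : 0 < p := hpr.pos
    exact_mod_cast this
  have hD : (0 : ℝ) < 2 ^ t * T ^ t := by positivity
  refine ⟨Vx p (6 * t), inferInstance, inferInstance, Gx p (6 * t), mom nb (nq p (6 * t)) T,
    fun S hS => card_ind_le (by omega) hS, ?_⟩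
  refine lasserre_mom (δ := 4 * (t : ℝ) / p) (ε := 1 / (2 ^ t * T ^ t)) (fun a b h => adj_Gx h) ht
    nb_symm nb_irrefl (reg_nb (by omega) (by omega)) (fun j hj => nq_pos (by omega)) hT hT1
    (by positivity) (by positivity) ?_ ?_ (gen_nb hp1)
  · have h1 : (1 / (2 ^ t * T ^ t)) ^ 2 = 1 / (4 ^ t * T ^ (2 * t)) := by
      rw [div_pow, one_pow, mul_pow, ← pow_mul, ← pow_mul, mul_comm t 2, pow_mul]
      norm_num
    have h2 : (0 : ℝ) < 4 ^ t * T ^ (2 * t) := by positivity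
    rw [h1, le_div_iff₀ h2]
    have h3 : 4 * (4 * (t : ℝ) / p) * (4 ^ t * T ^ (2 * t)) = 16 * (t : ℝ) * (4 ^ t * T ^ (2 * t)) / p := by
      ring
    rw [h3, div_le_one hp0]
    exact hp2
  · rw [one_div, inv_mul_cancel₀ hD.ne']

/-- PROOF: `exists_large_lasserre` with `T = max |B| (2 t)`, `lasserre_pow`, `sum_pow`, `le_lasserre`. -/
theorem lasserre_unbounded {t : ℕ} (ht : 1 ≤ t) (B : ℝ) :
    ∃ (V : Type) (_ : Fintype V) (_ : DecidableEq V) (G : SimpleGraph V),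
      (∀ S : Finset V, Ind G S → S.card ≤ 6 * t) ∧ ∀ n, B ^ n ≤ lasserre (powG G n) t := by
  obtain ⟨V, i1, i2, G, y, h1, h2, h3⟩ := exists_large_lasserre ht (le_max_right |B| (2 * t : ℝ))
  refine ⟨V, i1, i2, G, h1, fun n => ?_⟩
  have h4 := le_lasserre ht (lasserre_pow h2 n)
  rw [sum_pow, h3] at h4
  refine le_trans ?_ h4
  calc B ^ n ≤ |B ^ n| := le_abs_self _
    _ = |B| ^ n := abs_pow B n
    _ ≤ (max |B| (2 * t : ℝ)) ^ n := pow_le_pow_left₀ (abs_nonneg _) (le_max_left _ _) n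

end Pool.Agent.W_79d227_ls
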