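import Pool.Agent.W_79d227_ls.MomRel

/-!
Decomposition of the form on `t`-sets (proofs row 584, (5)).
-/

set_option autoImplicit false

namespace Pool.Agent.W_79d227_ls

open Finset

variable {V : Type} [Fintype V] [DecidableEq V] {nb : V → V → Prop} {t : ℕ} {n : ℕ → ℝ} {T : ℝ}

/-- PROOF: a common element of `I` and `J` outside `K` would be related to itself. -/
theorem inter_of_AK (hirr : ∀ v, ¬ nb v v) {K I J : Finset V} (hI : K ⊆ I) (hJ : K ⊆ J)
    (h : AK nb K I J) : I ∩ J = K := by
  apply Finset.Subset.antisymm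
  · intro v hv
    by_contra hK
    rw [Finset.mem_inter] at hv
    exact hirr v (h v (Finset.mem_sdiff.2 ⟨hv.1, hK⟩) v (Finset.mem_sdiff.2 ⟨hv.2, hK⟩))
  · exact Finset.subset_inter hI hJ

theorem AK_symm (hsym : ∀ a b, nb a b → nb b a) {K I J : Finset V} (h : AK nb K I J) :
    AK nb K J I := fun a ha b hb => hsym b a (h b hb a ha)

/-- For `t`-cliques `I`, `J`: `I ∪ J` is a clique iff `AK nb (I ∩ J) I J`. -/
theorem cl_union_iff (hsym : ∀ a b, nb a b → nb b a) {I J : Finset V} (hI : Cl nb I)
    (hJ : Cl nb J) : Cl nb (I ∪ J) ↔ AK nb (I ∩ J) I J := by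
  constructor
  · intro h a ha b hb
    rw [Finset.mem_sdiff, Finset.mem_inter] at ha hb
    refine h a (Finset.mem_union_left _ ha.1) b (Finset.mem_union_right _ hb.1) ?_
    rintro rfl
    exact ha.2 ⟨ha.1, hb.1⟩
  · intro h a ha b hb hab
    by_cases h1 : a ∈ I
    · by_cases h2 : b ∈ I
      · exact hI a h1 b h2 hab
      · have h3 : b ∈ J := (Finset.mem_union.1 hb).resolve_left h2
        by_cases h4 : a ∈ J
        · exact hJ a h4 b h3 hab
        · refine h a ?_ b ?_
          · rw [Finset.mem_sdiff, Finset.mem_inter]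
            exact ⟨h1, fun h => h4 h.2⟩
          · rw [Finset.mem_sdiff, Finset.mem_inter]
            exact ⟨h3, fun h => h2 h.1⟩
    · have h3 : a ∈ J := (Finset.mem_union.1 ha).resolve_left h1
      by_cases h4 : b ∈ J
      · exact hJ a h3 b h4 hab
      · have h2 : b ∈ I := (Finset.mem_union.1 hb).resolve_right h4
        refine hsym b a (h b ?_ a ?_)
        · rw [Finset.mem_sdiff, Finset.mem_inter]
          exact ⟨h2, fun h => h4 h.2⟩
        · rw [Finset.mem_sdiff, Finset.mem_inter]
          exact ⟨h3, fun h => h1 h.1⟩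

open Classical in
/-- PROOF: if `I` or `J` is not a clique, both sides are `0` (`Cl.mono`; `NK`). If both are cliques,
only `K = I ∩ J` contributes to the right side (`inter_of_AK`), `|I ∪ J| = 2 t - |I ∩ J|`, and
`cl_union_iff`. -/
theorem mom_union (hsym : ∀ a b, nb a b → nb b a) (hirr : ∀ v, ¬ nb v v) {I J : Finset V}
    (hI : I.card = t) (hJ : J.card = t) :
    mom nb n T (I ∪ J) = ∑ K : Finset V, cc n T (2 * t - K.card) *
      (if I ∈ NK nb t K ∧ J ∈ NK nb t K ∧ AK nb K I J then 1 else 0) := by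
  unfold mom
  by_cases hc : Cl nb (I ∪ J)
  · have hcI : Cl nb I := hc.mono Finset.subset_union_left
    have hcJ : Cl nb J := hc.mono Finset.subset_union_right
    have hA : AK nb (I ∩ J) I J := (cl_union_iff hsym hcI hcJ).1 hc
    rw [if_pos hc, Finset.sum_eq_single (I ∩ J)]
    · rw [if_pos, mul_one]
      · have h1 := Finset.card_union_add_card_inter I J
        have h2 : (I ∪ J).card = 2 * t - (I ∩ J).card := by omega
        rw [h2]
      · exact ⟨mem_NK.2 ⟨hI, Finset.inter_subset_left, hcI⟩,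
          mem_NK.2 ⟨hJ, Finset.inter_subset_right, hcJ⟩, hA⟩
    · intro K _ hK
      rw [if_neg, mul_zero]
      rintro ⟨h1, h2, h3⟩
      exact hK (inter_of_AK hirr (mem_NK.1 h1).2.1 (mem_NK.1 h2).2.1 h3).symm
    · intro h
      exact absurd (Finset.mem_univ _) h
  · rw [if_neg hc]
    symm
    apply Finset.sum_eq_zero
    intro K _
    rw [if_neg, mul_zero]
    rintro ⟨h1, h2, h3⟩
    apply hc
    have h4 := inter_of_AK hirr (mem_NK.1 h1).2.1 (mem_NK.1 h2).2.1 h3
    rw [cl_union_iff hsym (mem_NK.1 h1).2.2 (mem_NK.1 h2).2.2, h4]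
    exact h3

open Classical in
/-- PROOF: `mom_union`, interchange the sums. -/
theorem form_eq (hsym : ∀ a b, nb a b → nb b a) (hirr : ∀ v, ¬ nb v v) (F : Finset V → ℝ) :
    ∑ I ∈ univ.filter (fun I : Finset V => I.card = t),
      ∑ J ∈ univ.filter (fun J : Finset V => J.card = t), F I * F J * mom nb n T (I ∪ J) =
    ∑ K : Finset V, cc n T (2 * t - K.card) *
      ∑ I ∈ NK nb t K, ∑ J ∈ NK nb t K, F I * F J * (if AK nb K I J then 1 else 0) := by
  have hR : ∀ K : Finset V, ∑ I ∈ NK nb t K, ∑ J ∈ NK nb t K, F I * F J *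
      (if AK nb K I J then (1 : ℝ) else 0) =
      ∑ I ∈ univ.filter (fun I : Finset V => I.card = t),
        ∑ J ∈ univ.filter (fun J : Finset V => J.card = t), F I * F J *
        (if I ∈ NK nb t K ∧ J ∈ NK nb t K ∧ AK nb K I J then 1 else 0) := by
    intro K
    have hsub : NK nb t K ⊆ univ.filter (fun I : Finset V => I.card = t) := by
      intro I hI
      rw [Finset.mem_filter]
      exact ⟨Finset.mem_univ _, (mem_NK.1 hI).1⟩
    rw [← Finset.sum_subset hsub]
    · refine Finset.sum_congr rfl fun I hI => ?_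
      rw [← Finset.sum_subset hsub]
      · refine Finset.sum_congr rfl fun J hJ => ?_
        simp only [hI, hJ, true_and]
      · intro J _ hJ
        rw [if_neg (fun h => hJ h.2.1), mul_zero]
    · intro I _ hI
      apply Finset.sum_eq_zero
      intro J _
      rw [if_neg (fun h => hI h.1), mul_zero]
  have hL : ∀ I ∈ univ.filter (fun I : Finset V => I.card = t),
      ∑ J ∈ univ.filter (fun J : Finset V => J.card = t), F I * F J * mom nb n T (I ∪ J) =
      ∑ K : Finset V, ∑ J ∈ univ.filter (fun J : Finset V => J.card = t),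
        cc n T (2 * t - K.card) * (F I * F J *
        (if I ∈ NK nb t K ∧ J ∈ NK nb t K ∧ AK nb K I J then 1 else 0)) := by
    intro I hI
    rw [Finset.sum_comm]
    refine Finset.sum_congr rfl fun J hJ => ?_
    rw [mom_union hsym hirr (Finset.mem_filter.1 hI).2 (Finset.mem_filter.1 hJ).2, Finset.mul_sum]
    refine Finset.sum_congr rfl fun K _ => ?_
    ring
  rw [Finset.sum_congr rfl hL, Finset.sum_comm]
  refine Finset.sum_congr rfl fun K _ => ?_
  rw [hR K, Finset.mul_sum]
  refine Finset.sum_congr rfl fun I _ => ?_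
  rw [Finset.mul_sum]

end Pool.Agent.W_79d227_ls
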