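import Pool.Agent.W_79d227_ls.Bad
import Pool.Agent.W_79d227_ls.Count

/-!
Most `J` are in general position to `I` (proofs row 584, (9)(b)).
-/

set_option autoImplicit false

namespace Pool.Agent.W_79d227_ls

open Finset

variable {p m t : ℕ} [Fact p.Prime]

open Classical in
/-- PROOF: `dc_ge` for `P Y = (Disjoint Y K ∧ Cl nb (K ∪ Y) ∧ LX (I ∪ Y) ∧ LY (I ∪ Y))`,
`g a = nq p m (K.card + a) - 2 p ^ (m + r)`. `P ∅`: `LX_of_cl`, `LY_of_cl` for `I`. Continuations: if `P Y`,
`|Y| = a < r`, every `v ∈ cn nb (K ∪ Y)` with first and second component outside `spX (I ∪ Y)`,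
`spY (I ∪ Y)` is one (`LX_insert`, `LY_insert`, `cl_insert`, `v ∉ K` since `v ∈ cn`); there are at least
`g a` of them by `good_ge` with `C = K ∪ Y`, `S = I ∪ Y` (`|S| ≤ t + a`, `|C| = |K| + a`; enlarge the power of
`p`), and `card_cn_cl`. The map `Y ↦ K ∪ Y` is injective on the `Y` disjoint from `K`, and
`I ∪ (K ∪ Y) = I ∪ Y`. -/
theorem good_J (ht : 3 * t ≤ m) (hp : 3 * t + 2 < p) {K I : Finset (Vx p m)} {r : ℕ}
    (hr : K.card + r = t) (hI : I ∈ NK nb t K)
    (hg : ∀ a, a < r → 2 * (p : ℝ) ^ (m + r) ≤ nq p m (K.card + a)) :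
    ∏ a ∈ range r, (nq p m (K.card + a) - 2 * (p : ℝ) ^ (m + r)) ≤
      (r.factorial : ℝ) *
        (((NK nb t K).filter fun J => LX (I ∪ J) ∧ LY (I ∪ J)).card : ℝ) := by
  obtain ⟨hIc, hKI, hIcl⟩ := mem_NK.1 hI
  have hK : Cl nb K := hIcl.mono hKI
  have hpne : ∀ j : ℕ, j < t + 1 → ((j : ZMod p) + 1) ≠ 0 := by
    intro j hj
    have h1 : ((j + 1 : ℕ) : ZMod p) ≠ 0 := cast_ne (Nat.succ_pos j) (by omega)
    intro h2
    apply h1
    push_cast
    exact h2
  have hp2 : ∀ j : ℕ, j < t + 1 → ((j : ZMod p) + 2) ≠ 0 := by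
    intro j hj
    have h1 : ((j + 2 : ℕ) : ZMod p) ≠ 0 := cast_ne (Nat.succ_pos _) (by omega)
    intro h2
    apply h1
    push_cast
    exact h2
  have hp1 : (1 : ℝ) ≤ p := by
    have := (Fact.out : p.Prime).one_lt
    exact_mod_cast this.le
  obtain ⟨P, hP⟩ : ∃ P : Finset (Vx p m) → Prop, ∀ Y, P Y ↔
      (Disjoint Y K ∧ Cl nb (K ∪ Y) ∧ LX (I ∪ Y) ∧ LY (I ∪ Y)) := ⟨_, fun _ => Iff.rfl⟩
  have key := dc_ge P (fun a => nq p m (K.card + a) - 2 * (p : ℝ) ^ (m + r)) r
    (fun a ha => by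
      have := hg a ha
      linarith)
    (by
      rw [hP]
      refine ⟨Finset.disjoint_empty_left K, ?_, ?_, ?_⟩
      · rw [Finset.union_empty]; exact hK
      · rw [Finset.union_empty]
        exact LX_of_cl hIcl (by rw [hIc]; exact hpne t (by omega))
      · rw [Finset.union_empty]
        exact LY_of_cl hIcl (by rw [hIc]; exact hpne t (by omega)))
    (by
      intro Y hY hYr
      rw [hP] at hY
      obtain ⟨hd, hcl, hLX, hLY⟩ := hY
      have hCc : (K ∪ Y).card = K.card + Y.card := Finset.card_union_of_disjoint hd.symm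
      have hCt : (K ∪ Y).card < t := by omega
      have hCS : K ∪ Y ⊆ I ∪ Y := Finset.union_subset_union_left hKI
      have hCSc : (K ∪ Y).card ≤ (I ∪ Y).card := Finset.card_le_card hCS
      have hSc : (I ∪ Y).card ≤ t + Y.card := by
        have := Finset.card_union_le I Y
        omega
      have hX : LX (K ∪ Y) := LX_of_cl hcl (hpne _ (by omega))
      have hY' : LY (K ∪ Y) := LY_of_cl hcl (hpne _ (by omega))
      have h1 := good_ge (C := K ∪ Y) (S := I ∪ Y) hX hY' hCSc
      have h2 := card_cn_cl hcl (by omega) (hpne _ (by omega)) (hp2 _ (by omega))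
      have h3 : (p : ℝ) ^ (m + ((I ∪ Y).card - (K ∪ Y).card)) ≤ (p : ℝ) ^ (m + r) :=
        pow_le_pow_right₀ hp1 (by omega)
      rw [h2, hCc] at h1
      rw [hCc] at h3
      have h4 : (((cn nb (K ∪ Y)).filter fun v => v.1.1 ∉ spX (I ∪ Y) ∧ v.1.2 ∉ spY (I ∪ Y)).card : ℝ) ≤
          ((univ.filter fun v => v ∉ Y ∧ P (insert v Y)).card : ℝ) := by
        apply Nat.cast_le.2
        apply Finset.card_le_card
        intro v hv
        rw [Finset.mem_filter] at hv
        obtain ⟨hv1, hv2, hv3⟩ := hv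
        obtain ⟨hv4, hv5⟩ := LX_insert hLX hv2
        obtain ⟨_, hv6⟩ := LY_insert hLY hv3
        have hvY : v ∉ Y := fun h => hv4 (Finset.mem_union_right _ h)
        have hvK : v ∉ K := fun h => hv4 (Finset.mem_union_left _ (hKI h))
        rw [Finset.mem_filter]
        refine ⟨Finset.mem_univ _, hvY, ?_⟩
        rw [hP]
        refine ⟨?_, ?_, ?_, ?_⟩
        · rw [Finset.disjoint_insert_left]
          exact ⟨hvK, hd⟩
        · rw [Finset.union_insert]
          exact (cl_insert nb_symm (fun h => by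
            rcases Finset.mem_union.1 h with h | h
            · exact hvK h
            · exact hvY h)).2 ⟨hcl, hv1⟩
        · rw [Finset.union_insert]
          exact hv5
        · rw [Finset.union_insert]
          exact hv6
      linarith)
  refine key.trans ?_
  apply mul_le_mul_of_nonneg_left _ (Nat.cast_nonneg _)
  apply Nat.cast_le.2
  apply Finset.card_le_card_of_injOn (fun Y => K ∪ Y)
  · intro Y hY
    rw [Finset.mem_coe, Finset.mem_filter] at hY
    obtain ⟨_, hYr, hPY⟩ := hY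
    rw [hP] at hPY
    obtain ⟨hd, hcl, hLX, hLY⟩ := hPY
    rw [Finset.mem_coe, Finset.mem_filter]
    refine ⟨mem_NK.2 ⟨?_, Finset.subset_union_left, hcl⟩, ?_⟩
    · rw [Finset.card_union_of_disjoint hd.symm]
      omega
    · have hu : I ∪ (K ∪ Y) = I ∪ Y := by
        rw [← Finset.union_assoc, Finset.union_eq_left.2 hKI]
      simp only
      rw [hu]
      exact ⟨hLX, hLY⟩
  · intro Y hY Y' hY' hYY
    rw [Finset.mem_coe, Finset.mem_filter] at hY hY'
    have hd : Disjoint Y K := ((hP Y).1 hY.2.2).1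
    have hd' : Disjoint Y' K := ((hP Y').1 hY'.2.2).1
    have e1 : (K ∪ Y) \ K = Y := by
      rw [Finset.union_sdiff_left]
      exact Finset.sdiff_eq_self_of_disjoint hd
    have e2 : (K ∪ Y') \ K = Y' := by
      rw [Finset.union_sdiff_left]
      exact Finset.sdiff_eq_self_of_disjoint hd'
    simp only at hYY
    rw [← e1, hYY, e2]

end Pool.Agent.W_79d227_ls
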