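import Pool.Agent.W_79d227_ls.Defs

/-!
Counting solutions of linear equations over `ZMod p` (proofs row 584).
-/

set_option autoImplicit false

namespace Pool.Agent.W_79d227_ls

open Finset

variable {p m : ℕ} [Fact p.Prime]

theorem ip_comm (x y : Fin m → ZMod p) : ip x y = ip y x := by
  unfold ip
  exact sum_congr rfl fun i _ => mul_comm _ _

theorem ip_add (x y z : Fin m → ZMod p) : ip x (y + z) = ip x y + ip x z := by
  unfold ip
  rw [← sum_add_distrib]
  exact sum_congr rfl fun i _ => by rw [Pi.add_apply, mul_add]

theorem ip_smul (c : ZMod p) (x y : Fin m → ZMod p) : ip x (c • y) = c * ip x y := by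
  unfold ip
  rw [mul_sum]
  exact sum_congr rfl fun i _ => by rw [Pi.smul_apply, smul_eq_mul, mul_left_comm]

theorem ip_sum {ι : Type} (s : Finset ι) (x : Fin m → ZMod p) (f : ι → Fin m → ZMod p) :
    ip x (∑ i ∈ s, f i) = ∑ i ∈ s, ip x (f i) := by
  unfold ip
  rw [sum_comm]
  refine sum_congr rfl fun i _ => ?_
  rw [Finset.sum_apply, mul_sum]

private theorem Lin_card {κ : Type} [Fintype κ] [DecidableEq κ] (v : κ → Fin m → ZMod p)
    (hv : LinearIndependent (ZMod p) v) (b : κ → ZMod p) :
    (univ.filter fun z : Fin m → ZMod p => ∀ k, ip (v k) z = b k).card * p ^ Fintype.card κ =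
      p ^ m := by
  classical
  let M : Matrix κ (Fin m) (ZMod p) := Matrix.of v
  have hrank : M.rank = Fintype.card κ := LinearIndependent.rank_matrix hv
  have hsurj : Function.Surjective M.mulVecLin := by
    rw [← LinearMap.range_eq_top]
    apply Submodule.eq_top_of_finrank_eq
    rw [Module.finrank_fintype_fun_eq_card]
    exact hrank
  have hap : ∀ z k, M.mulVecLin z k = ip (v k) z := by
    intro z k
    rfl
  have hfib : ∀ c : κ → ZMod p,
      (univ.filter fun z : Fin m → ZMod p => M.mulVecLin z = c).card =
      (univ.filter fun z : Fin m → ZMod p => M.mulVecLin z = b).card := fun c =>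
    AddMonoidHom.card_fiber_eq_of_mem_range M.mulVecLin (hsurj c) (hsurj b)
  have htot : Fintype.card (Fin m → ZMod p) =
      ∑ c : κ → ZMod p, (univ.filter fun z : Fin m → ZMod p => M.mulVecLin z = c).card := by
    rw [← card_univ]
    exact card_eq_sum_card_fiberwise fun z _ => mem_univ _
  rw [sum_congr rfl fun c _ => hfib c, sum_const, card_univ, Fintype.card_fun, Fintype.card_fun,
    ZMod.card, Fintype.card_fin, smul_eq_mul] at htot
  rw [htot, mul_comm]
  congr 2
  ext z
  rw [mem_filter, mem_filter, funext_iff]
  simp only [hap]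

/-- `c` independent equations have `p ^ (m - c)` solutions. PROOF: the linear map
`z ↦ (i ↦ ip (u i) z)` to `s → ZMod p` is surjective (rank of the matrix with the independent rows
`u i`, e.g. `LinearIndependent.rank_matrix`), so all its fibres have the same number of elements. -/
theorem card_sol {ι : Type} [DecidableEq ι] (u : ι → Fin m → ZMod p) (s : Finset ι)
    (hu : LinearIndepOn (ZMod p) u (s : Set ι)) (b : ι → ZMod p) :
    ((univ.filter fun z : Fin m → ZMod p => ∀ i ∈ s, ip (u i) z = b i).card) * p ^ s.card = p ^ m := by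
  have h := Lin_card (κ := {i // i ∈ s}) (fun k => u k.1) hu (fun k => b k.1)
  rw [Fintype.card_coe] at h
  rw [← h]
  congr 2
  ext z
  rw [mem_filter, mem_filter]
  simp only [mem_univ, true_and, Subtype.forall]

/-- The span of `s.card` vectors has at most `p ^ s.card` elements. -/
theorem card_span_le {ι : Type} [DecidableEq ι] (u : ι → Fin m → ZMod p) (s : Finset ι)
    [DecidablePred fun z : Fin m → ZMod p => z ∈ Submodule.span (ZMod p) (u '' (s : Set ι))] :
    (univ.filter fun z : Fin m → ZMod p => z ∈ Submodule.span (ZMod p) (u '' (s : Set ι))).card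
      ≤ p ^ s.card := by
  classical
  have h1 : (univ.filter fun z : Fin m → ZMod p =>
      z ∈ Submodule.span (ZMod p) (u '' (s : Set ι))).card =
      Fintype.card (Submodule.span (ZMod p) (u '' (s : Set ι))) := by
    rw [Fintype.card_subtype]
  have h2 : Module.finrank (ZMod p) (Submodule.span (ZMod p) (u '' (s : Set ι))) ≤ s.card := by
    have h3 := finrank_span_finset_le_card (R := ZMod p) (s.image u)
    rw [coe_image] at h3
    exact h3.trans card_image_le
  rw [h1, Module.card_eq_pow_finrank (K := ZMod p), ZMod.card]
  exact Nat.pow_le_pow_right (Fact.out : p.Prime).pos h2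

/-- Independent families have at most `m` elements. -/
theorem card_le_of_indep {ι : Type} [DecidableEq ι] (u : ι → Fin m → ZMod p) (s : Finset ι)
    (hu : LinearIndepOn (ZMod p) u (s : Set ι)) : s.card ≤ m := by
  have h1 : Fintype.card {i // i ∈ s} ≤ Module.finrank (ZMod p) (Fin m → ZMod p) :=
    LinearIndependent.fintype_card_le_finrank (b := fun k : {i // i ∈ s} => u k.1) hu
  rwa [Fintype.card_coe, Module.finrank_fin_fun] at h1

/-- Independent equations together with one equation for a vector `z` outside the span: for
`z ∉ span (u '' s)` the equations `ip (u i) w = b i`, `ip z w = c` have `p ^ (m - |s| - 1)` solutions. PROOF: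
`card_sol` for `Option ι` (or apply it to the family on `insert`), independence from
`linearIndepOn_insert` or `LinearIndependent.option`. -/
theorem card_sol_succ {ι : Type} [DecidableEq ι] (u : ι → Fin m → ZMod p) (s : Finset ι)
    (hu : LinearIndepOn (ZMod p) u (s : Set ι)) (b : ι → ZMod p) (z : Fin m → ZMod p)
    (hz : z ∉ Submodule.span (ZMod p) (u '' (s : Set ι))) (c : ZMod p) :
    ((univ.filter fun w : Fin m → ZMod p => (∀ i ∈ s, ip (u i) w = b i) ∧ ip z w = c).card)
      * p ^ (s.card + 1) = p ^ m := by
  have hr : Set.range (fun k : {i // i ∈ s} => u k.1) = u '' (s : Set ι) := by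
    ext y
    constructor
    · rintro ⟨k, rfl⟩
      exact ⟨k.1, k.2, rfl⟩
    · rintro ⟨i, hi, rfl⟩
      exact ⟨⟨i, hi⟩, rfl⟩
  have h := Lin_card (κ := Option {i // i ∈ s})
    (fun o => Option.casesOn' o z (fun k : {i // i ∈ s} => u k.1))
    (LinearIndependent.option (v := fun k : {i // i ∈ s} => u k.1) hu (by rw [hr]; exact hz))
    (fun o => Option.casesOn' o c (fun k : {i // i ∈ s} => b k.1))
  rw [Fintype.card_option, Fintype.card_coe] at h
  rw [← h]
  congr 2
  ext w
  rw [mem_filter, mem_filter]
  simp only [mem_univ, true_and, Option.forall, Option.casesOn'_none, Option.casesOn'_some,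
    Subtype.forall]
  exact and_comm

end Pool.Agent.W_79d227_ls
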