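import Pool.Agent.W_79d227_ls.Clq

/-!
The number of common neighbours of a clique (proofs row 584, (2)).
-/

set_option autoImplicit false

namespace Pool.Agent.W_79d227_ls

open Finset

variable {p m : ℕ} [Fact p.Prime]

/-- The common neighbours as pairs of vectors: `v ∈ cn nb S` iff `⟨x_v, x'_s⟩ = 1`, `⟨x_s, x'_v⟩ = 1` for all
`s ∈ S`. The number of them is the sum over all `z` with `⟨x'_s, z⟩ = 1` (`s ∈ S`) of the number of `w` with
`⟨x_s, w⟩ = 1` (`s ∈ S`), `⟨z, w⟩ = 2`. -/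
theorem card_cn_eq (S : Finset (Vx p m)) :
    (cn nb S).card = ∑ z ∈ univ.filter (fun z : Fin m → ZMod p => ∀ s ∈ S, ip s.1.2 z = 1),
      (univ.filter fun w : Fin m → ZMod p => (∀ s ∈ S, ip s.1.1 w = 1) ∧ ip z w = 2).card := by
  rw [← card_sigma]
  refine card_bij (fun v _ => ⟨v.1.1, v.1.2⟩) ?_ ?_ ?_
  · intro v hv
    rw [mem_cn] at hv
    refine mem_sigma.2 ⟨mem_filter.2 ⟨mem_univ _, fun s hs => ?_⟩,
      mem_filter.2 ⟨mem_univ _, fun s hs => (hv s hs).2, v.2⟩⟩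
    rw [ip_comm]
    exact (hv s hs).1
  · intro v _ v' _ h
    have h1 : v.1.1 = v'.1.1 := congrArg Sigma.fst h
    have h2 : v.1.2 = v'.1.2 := eq_of_heq (Sigma.mk.inj h).2
    exact Subtype.ext (Prod.ext h1 h2)
  · rintro ⟨z, w⟩ hzw
    obtain ⟨h1, h2⟩ := mem_sigma.1 hzw
    have h3 := (mem_filter.1 h1).2
    obtain ⟨h4, h5⟩ := (mem_filter.1 h2).2
    refine ⟨⟨(z, w), h5⟩, ?_, rfl⟩
    rw [mem_cn]
    intro s hs
    refine ⟨?_, h4 s hs⟩
    show ip z s.1.2 = 1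
    rw [ip_comm]
    exact h3 s hs

theorem RegX_pair {S : Finset (Vx p m)} (hS : Cl nb S) (c : Vx p m → ZMod p) {j : Vx p m}
    (hj : j ∈ S) : ip j.1.2 (∑ s ∈ S, c s • s.1.1) = (∑ s ∈ S, c s) + c j := by
  classical
  rw [ip_sum]
  have h1 : ∀ s ∈ S, ip j.1.2 (c s • s.1.1) = c s + if s = j then c s else 0 := by
    intro s hs
    rw [ip_smul, ip_comm]
    by_cases h : s = j
    · rw [if_pos h, h, j.2]
      ring
    · rw [if_neg h, (hS s hs j hj h).1]
      ring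
  rw [sum_congr rfl h1, sum_add_distrib, sum_ite_eq', if_pos hj]

/-- Let `S` be a clique, `|S| = q`, `z` in the span of the `x_s` and `⟨x'_s, z⟩ = 1` for all `s`. Then
`z = (q + 1)⁻¹ ∑ x_s`. PROOF: `z = ∑ λ_s x_s`, pair with `x'_j`: `∑ λ + λ_j = 1`, so all `λ_j` are equal
to `1 - ∑ λ`, `∑ λ = q (1 - ∑ λ)`. -/
theorem span_unique {S : Finset (Vx p m)} (hS : Cl nb S) (h : ((S.card : ZMod p) + 1) ≠ 0)
    {z : Fin m → ZMod p} (hz : z ∈ spX S) (hz1 : ∀ s ∈ S, ip s.1.2 z = 1) :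
    z = ((S.card : ZMod p) + 1)⁻¹ • ∑ s ∈ S, s.1.1 := by
  obtain ⟨c, rfl⟩ := (Submodule.mem_span_image_finset_iff_exists_fun' (ZMod p)).1 hz
  obtain ⟨L, hL⟩ : ∃ L, L = ∑ s ∈ S, c s := ⟨_, rfl⟩
  have h1 : ∀ s ∈ S, c s = 1 - L := by
    intro s hs
    have h2 := hz1 s hs
    rw [RegX_pair hS c hs, ← hL] at h2
    rw [← h2]
    ring
  have h3 : L = (S.card : ZMod p) * (1 - L) := by
    have h4 : ∑ s ∈ S, c s = ∑ s ∈ S, (1 - L) := sum_congr rfl h1
    rw [← hL, sum_const, nsmul_eq_mul] at h4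
    exact h4
  have h5 : ((S.card : ZMod p) + 1)⁻¹ = 1 - L := by
    have h6 : ((S.card : ZMod p) + 1) * (1 - L) = 1 := by
      linear_combination -h3
    exact inv_eq_of_mul_eq_one_right h6
  rw [h5, smul_sum]
  exact sum_congr rfl fun s hs => by rw [h1 s hs]

/-- The vector `(q + 1)⁻¹ ∑ x_s` does satisfy the equations and lies in the span. -/
theorem span_exists {S : Finset (Vx p m)} (hS : Cl nb S) (h : ((S.card : ZMod p) + 1) ≠ 0) :
    ((S.card : ZMod p) + 1)⁻¹ • ∑ s ∈ S, s.1.1 ∈ spX S ∧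
      ∀ s ∈ S, ip s.1.2 (((S.card : ZMod p) + 1)⁻¹ • ∑ s ∈ S, s.1.1) = 1 := by
  refine ⟨Submodule.smul_mem _ _ (Submodule.sum_mem _ fun s hs =>
    Submodule.subset_span ⟨s, mem_coe.2 hs, rfl⟩), fun s hs => ?_⟩
  rw [smul_sum, RegX_pair hS (fun _ => ((S.card : ZMod p) + 1)⁻¹) hs, sum_const, nsmul_eq_mul]
  have h1 : (S.card : ZMod p) * ((S.card : ZMod p) + 1)⁻¹ + ((S.card : ZMod p) + 1)⁻¹ =
      ((S.card : ZMod p) + 1) * ((S.card : ZMod p) + 1)⁻¹ := by ring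
  rw [h1, mul_inv_cancel₀ h]

/-- PROOF: `card_cn_eq`. For the one `z` in `spX S` (`span_unique`, `span_exists`) there is no `w`: it would
give `⟨z, w⟩ = q / (q + 1) = 2`, so `q + 2 = 0`. For the other `p ^ (m - q) - 1` vectors `z` (`card_sol` for
the second components, `LY_of_cl`) there are `p ^ (m - q - 1)` vectors `w` (`card_sol_succ`). -/
theorem card_cn_cl {S : Finset (Vx p m)} (hS : Cl nb S) (hq : S.card < m)
    (h1 : ((S.card : ZMod p) + 1) ≠ 0) (h2 : ((S.card : ZMod p) + 2) ≠ 0) :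
    ((cn nb S).card : ℝ) = nq p m S.card := by
  classical
  have hp : 0 < p := (Fact.out : p.Prime).pos
  rw [card_cn_eq]
  obtain ⟨Z, hZ⟩ : ∃ Z, Z = univ.filter (fun z : Fin m → ZMod p => ∀ s ∈ S, ip s.1.2 z = 1) := ⟨_, rfl⟩
  rw [← hZ]
  obtain ⟨z0, hz0⟩ : ∃ z0, z0 = ((S.card : ZMod p) + 1)⁻¹ • ∑ s ∈ S, s.1.1 := ⟨_, rfl⟩
  have hex := span_exists hS h1
  rw [← hz0] at hex
  have hz0Z : z0 ∈ Z := by
    rw [hZ]
    exact mem_filter.2 ⟨mem_univ _, hex.2⟩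
  have hZc : Z.card = p ^ (m - S.card) := by
    have h3 := card_sol (fun v : Vx p m => v.1.2) S (LY_of_cl hS h1) (fun _ => 1)
    rw [← hZ] at h3
    have h4 : p ^ m = p ^ (m - S.card) * p ^ S.card := by
      rw [← pow_add, Nat.sub_add_cancel hq.le]
    rw [h4] at h3
    exact Nat.eq_of_mul_eq_mul_right (pow_pos hp _) h3
  have hN0 : (univ.filter fun w : Fin m → ZMod p => (∀ s ∈ S, ip s.1.1 w = 1) ∧ ip z0 w = 2).card = 0 := by
    rw [card_eq_zero, filter_eq_empty_iff]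
    rintro w - ⟨h3, h4⟩
    rw [hz0, ip_comm, ip_smul, ip_sum] at h4
    have h5 : ∑ s ∈ S, ip w s.1.1 = S.card := by
      rw [sum_congr rfl fun s hs => (ip_comm w s.1.1).trans (h3 s hs), sum_const, nsmul_eq_mul,
        mul_one]
    rw [h5, inv_mul_eq_iff_eq_mul₀ h1] at h4
    exact h2 (by linear_combination -h4)
  have hN : ∀ z ∈ Z.erase z0, (univ.filter fun w : Fin m → ZMod p =>
      (∀ s ∈ S, ip s.1.1 w = 1) ∧ ip z w = 2).card = p ^ (m - S.card - 1) := by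
    intro z hz
    obtain ⟨h3, h4⟩ := mem_erase.1 hz
    rw [hZ] at h4
    have h5 : z ∉ spX S := fun h => h3 (by
      rw [hz0]
      exact span_unique hS h1 h (mem_filter.1 h4).2)
    have h6 := card_sol_succ (fun v : Vx p m => v.1.1) S (LX_of_cl hS h1) (fun _ => 1) z h5 2
    have h7 : p ^ m = p ^ (m - S.card - 1) * p ^ (S.card + 1) := by
      rw [← pow_add]
      congr 1
      omega
    rw [h7] at h6
    exact Nat.eq_of_mul_eq_mul_right (pow_pos hp _) h6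
  rw [← add_sum_erase Z _ hz0Z, hN0, zero_add, sum_congr rfl hN, sum_const, smul_eq_mul,
    card_erase_of_mem hz0Z, hZc]
  unfold nq
  have h8 : 1 ≤ p ^ (m - S.card) := Nat.one_le_pow _ _ hp
  push_cast [Nat.cast_sub h8]
  ring

/-- PROOF: `card_cn_cl`, `cast_ne`. -/
theorem reg_nb {t : ℕ} (hm : 2 * t ≤ m) (hp : 2 * t + 2 < p) :
    Reg (nb (p := p) (m := m)) t (nq p m) := by
  intro S hS hSt
  refine card_cn_cl hS (by omega) ?_ ?_
  · have h := cast_ne (p := p) (j := S.card + 1) (by omega) (by omega)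
    push_cast at h
    exact h
  · have h := cast_ne (p := p) (j := S.card + 2) (by omega) (by omega)
    push_cast at h
    exact h

theorem nq_pos {q : ℕ} (hq : q < m) : 0 < nq p m q := by
  have hp : (1 : ℝ) < p := by exact_mod_cast (Fact.out : p.Prime).one_lt
  unfold nq
  have h1 : (1 : ℝ) < (p : ℝ) ^ (m - q) := one_lt_pow₀ hp (by omega)
  have h2 : (0 : ℝ) < (p : ℝ) ^ (m - q - 1) := pow_pos (by linarith) _
  exact mul_pos (by linarith) h2

end Pool.Agent.W_79d227_ls
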